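import Pool.Agent.Q151.CC.Flux

/-! Comparison of fluxes of a field in a cone (project CC of helper85, job CC-PINCH). -/

set_option autoImplicit false

open MeasureTheory Set Metric
open scoped ContDiff
open H459R3.NS Pool.Agent.W268.NS Pool.Agent.Q67.VD Pool.Agent.Q85.CC

namespace Pool.Agent.Q151.CC

variable {e x : V} {W : V → V} {a R : ℝ}

lemma CP.nonneg (h : CP a R e x W) (ha : 0 < a) {y : V} (hy : y ∈ closedBall x R) :
    0 ≤ e ⬝ᵥ W y := by
  have h1 := h y hy 0 (by simp) (by simp)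
  rw [zero_dotProduct] at h1
  exact nonneg_of_mul_nonneg_right h1 ha

/-- the argument of the cut-off -/
noncomputable def ga (e x : V) (d ρ θ a z₀ : ℝ) (y : V) : ℝ :=
  (nd e x d y - ρ - θ * a * (hgt e x y - z₀)) / d

/-- the test function -/
noncomputable def tf (e x : V) (d ρ θ a z₀ : ℝ) (ζ : ℝ → ℝ) (y : V) : ℝ :=
  ζ (hgt e x y) * bt (ga e x d ρ θ a z₀ y)

lemma hgt_c1 (e x : V) : ContDiff ℝ 1 (hgt e x) := (hgt_smooth e x).of_le (by norm_cast)

lemma ga_c1 (he : e ⬝ᵥ e = 1) (x : V) {d : ℝ} (hd : 0 < d) (ρ θ a z₀ : ℝ) :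
    ContDiff ℝ 1 (ga e x d ρ θ a z₀) := by
  have h1 := hgt_c1 e x
  have h2 : ContDiff ℝ 1 (nd e x d) := (nd_smooth he x hd).of_le (by norm_cast)
  unfold ga
  fun_prop

lemma tf_c1 (he : e ⬝ᵥ e = 1) (x : V) {d : ℝ} (hd : 0 < d) (ρ θ a z₀ : ℝ) {ζ : ℝ → ℝ}
    (hζ : ContDiff ℝ 1 ζ) : ContDiff ℝ 1 (tf e x d ρ θ a z₀ ζ) := by
  unfold tf
  exact (hζ.comp (hgt_c1 e x)).mul (bt_smooth.comp (ga_c1 he x hd ρ θ a z₀))

lemma tf_fderiv (he : e ⬝ᵥ e = 1) (x : V) {d : ℝ} (hd : 0 < d) (ρ θ a z₀ : ℝ) {ζ f : ℝ → ℝ}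
    (hζ : ∀ z, HasDerivAt ζ (f z) z) (hf : Continuous f) (y w : V) :
    fderiv ℝ (tf e x d ρ θ a z₀ ζ) y w
      = f (hgt e x y) * (e ⬝ᵥ w) * bt (ga e x d ρ θ a z₀ y)
        + ζ (hgt e x y) * (-tent (1 / 2) (1 / 2) (ga e x d ρ θ a z₀ y)
          * (((no e x y ⬝ᵥ w) / nd e x d y - θ * a * (e ⬝ᵥ w)) / d)) := by
  have h1 := ((tf_c1 he x hd ρ θ a z₀ (contDiff_of_deriv hζ hf)).differentiable
    one_ne_zero y).hasFDerivAt.hasLineDerivAt w
  have h1' : HasDerivAt (fun t : ℝ => tf e x d ρ θ a z₀ ζ (y + t • w))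
    (fderiv ℝ (tf e x d ρ θ a z₀ ζ) y w) 0 := h1
  have a1 := hgt_line e x y w
  have a2 := nd_line he x hd y w
  have a3 : HasDerivAt (fun t : ℝ => ga e x d ρ θ a z₀ (y + t • w))
      (((no e x y ⬝ᵥ w) / nd e x d y - θ * a * (e ⬝ᵥ w)) / d) 0 :=
    ((a2.sub_const ρ).sub ((a1.sub_const z₀).const_mul (θ * a))).div_const d
  have a4 := (hζ (hgt e x (y + (0 : ℝ) • w))).comp 0 a1
  have a5 := (bt_deriv (ga e x d ρ θ a z₀ (y + (0 : ℝ) • w))).comp 0 a3
  have h2 := a4.mul a5
  have h3 := h1'.unique h2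
  rw [h3]
  simp only [Function.comp, zero_smul, add_zero]

lemma cyl_meas (e x : V) (P : ℝ) : MeasurableSet {y | pr2 e x y ≤ P ^ 2} :=
  (isClosed_le (pr2_smooth e x).continuous continuous_const).measurableSet

lemma int_cont {f : V → ℝ} (hf : Continuous f) (x : V) (R : ℝ) :
    IntegrableOn f (closedBall x R) :=
  hf.continuousOn.integrableOn_compact (isCompact_closedBall x R)

lemma fl_cont (hW : Continuous W) {η : ℝ → ℝ} (hη : Continuous η) :
    Continuous fun y => η (hgt e x y) * (e ⬝ᵥ W y) := by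
  have h1 := (hgt_smooth e x).continuous
  have h2 : Continuous fun y => e ⬝ᵥ W y := continuous_const.dotProduct hW
  exact (hη.comp h1).mul h2

/-- comparison of the flux with an integral with a weight, from above -/
lemma fl_le (hW : Continuous W) {η : ℝ → ℝ}
    (hη : Continuous η) {P : ℝ} {f : V → ℝ} (hf : Continuous f)
    (hf0 : ∀ y ∈ closedBall x R, 0 ≤ f y)
    (h : ∀ y ∈ closedBall x R, pr2 e x y ≤ P ^ 2 → η (hgt e x y) * (e ⬝ᵥ W y) ≤ f y) :
    fl R e x W η P ≤ ∫ y in closedBall x R, f y := by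
  unfold fl
  refine setIntegral_mono_on ((int_cont (fl_cont hW hη) x R).indicator (cyl_meas e x P))
    (int_cont hf x R) isClosed_closedBall.measurableSet fun y hy => ?_
  by_cases hy2 : pr2 e x y ≤ P ^ 2
  · rw [indicator_of_mem (by exact hy2)]
    exact h y hy hy2
  · rw [indicator_of_notMem (by exact hy2)]
    exact hf0 y hy

/-- comparison of the flux with an integral with a weight, from below -/
lemma le_fl (hW : Continuous W) {η : ℝ → ℝ}
    (hη : Continuous η) {P : ℝ} {f : V → ℝ} (hf : Continuous f)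
    (h : ∀ y ∈ closedBall x R, pr2 e x y ≤ P ^ 2 → f y ≤ η (hgt e x y) * (e ⬝ᵥ W y))
    (h2 : ∀ y ∈ closedBall x R, ¬ pr2 e x y ≤ P ^ 2 → f y ≤ 0) :
    ∫ y in closedBall x R, f y ≤ fl R e x W η P := by
  unfold fl
  refine setIntegral_mono_on (int_cont hf x R)
    ((int_cont (fl_cont hW hη) x R).indicator (cyl_meas e x P))
    isClosed_closedBall.measurableSet fun y hy => ?_
  by_cases hy2 : pr2 e x y ≤ P ^ 2
  · rw [indicator_of_mem (by exact hy2)]
    exact h y hy hy2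
  · rw [indicator_of_notMem (by exact hy2)]
    exact h2 y hy hy2

lemma fl_mono (ha : 0 < a) (hCP : CP a R e x W) (hW : Continuous W) {η : ℝ → ℝ}
    (hη : Continuous η) (hn : ∀ z, 0 ≤ η z) {P P' : ℝ} (hP : 0 ≤ P) (hPP : P ≤ P') :
    fl R e x W η P ≤ fl R e x W η P' := by
  unfold fl
  refine setIntegral_mono_on ((int_cont (fl_cont hW hη) x R).indicator (cyl_meas e x P))
    ((int_cont (fl_cont hW hη) x R).indicator (cyl_meas e x P'))
    isClosed_closedBall.measurableSet fun y hy => ?_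
  have h0 : 0 ≤ η (hgt e x y) * (e ⬝ᵥ W y) := mul_nonneg (hn _) (hCP.nonneg ha hy)
  by_cases hy2 : pr2 e x y ≤ P ^ 2
  · have hy3 : pr2 e x y ≤ P' ^ 2 := hy2.trans (by gcongr)
    rw [indicator_of_mem (by exact hy2), indicator_of_mem (by exact hy3)]
  · rw [indicator_of_notMem (by exact hy2)]
    by_cases hy3 : pr2 e x y ≤ P' ^ 2
    · rw [indicator_of_mem (by exact hy3)]
      exact h0
    · rw [indicator_of_notMem (by exact hy3)]

lemma step (he : e ⬝ᵥ e = 1) (ha : 0 < a) (hCP : CP a R e x W) (hW : WD R x W) {θ z₀ L P d : ℝ}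
    (hθ : θ = 1 ∨ θ = -1) (hL : 0 ≤ L) (hP : 0 ≤ P) (hd : 0 < d) {η₁ η₂ ζ : ℝ → ℝ}
    (hc1 : Continuous η₁) (hc2 : Continuous η₂) (hn1 : ∀ z, 0 ≤ η₁ z) (hn2 : ∀ z, 0 ≤ η₂ z)
    (hs1 : ∀ z, η₁ z ≠ 0 → 0 ≤ θ * (z - z₀)) (hs2 : ∀ z, η₂ z ≠ 0 → θ * (z - z₀) ≤ L)
    (hζ' : ∀ z, HasDerivAt ζ (η₁ z - η₂ z) z) (hζs : ∀ z, 0 ≤ θ * ζ z)
    (hζ0 : ∀ z, ζ z ≠ 0 → 0 ≤ θ * (z - z₀) ∧ θ * (z - z₀) ≤ L)
    (hR : |z₀| + L + (P + 2 * d + a * L) ≤ R) :
    fl R e x W η₁ P ≤ fl R e x W η₂ (P + 2 * d + a * L) := by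
  have hθ2 : θ * θ = 1 := by rcases hθ with h | h <;> rw [h] <;> norm_num
  have hP' : 0 ≤ P + 2 * d + a * L := by positivity
  set g : V → ℝ := ga e x d (P + d) θ a z₀ with hg
  have hζc : ContDiff ℝ 1 ζ := contDiff_of_deriv hζ' (hc1.sub hc2)
  have hgc : Continuous g := (ga_c1 he x hd (P + d) θ a z₀).continuous
  have hbc : Continuous fun y => bt (g y) := bt_smooth.continuous.comp hgc
  -- the cut-off
  have K1 : ∀ y, bt (g y) ≠ 0 → θ * (hgt e x y - z₀) ≤ L →
      pr2 e x y ≤ (P + 2 * d + a * L) ^ 2 := by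
    intro y hy hy2
    have h1 : g y < 1 := by
      by_contra hc
      exact hy (bt_zero (not_lt.1 hc))
    have h2 : nd e x d y < P + 2 * d + a * L := by
      rw [hg, ga, div_lt_one hd] at h1
      have h3 : θ * a * (hgt e x y - z₀) ≤ a * L := by
        calc θ * a * (hgt e x y - z₀) = a * (θ * (hgt e x y - z₀)) := by ring
          _ ≤ _ := by gcongr
      linarith
    have h3 := nd_pos he x hd y
    have h4 := nd_sq he x hd y
    have h5 : nd e x d y ^ 2 ≤ (P + 2 * d + a * L) ^ 2 := by gcongr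
    nlinarith [sq_nonneg d]
  have K2 : ∀ y, 0 ≤ θ * (hgt e x y - z₀) → pr2 e x y ≤ P ^ 2 → bt (g y) = 1 := by
    intro y hy hy2
    apply bt_one
    rw [hg, ga]
    apply div_nonpos_of_nonpos_of_nonneg _ hd.le
    have h1 : nd e x d y ≤ P + d := by
      unfold nd
      rw [show P + d = √((P + d) ^ 2) from (Real.sqrt_sq (by positivity)).symm]
      apply Real.sqrt_le_sqrt
      nlinarith [mul_nonneg hP hd.le]
    have h3 : 0 ≤ θ * a * (hgt e x y - z₀) := by
      calc 0 ≤ a * (θ * (hgt e x y - z₀)) := by positivity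
        _ = _ := by ring
    linarith
  -- the support of the test function
  have hsupp : Function.support (tf e x d (P + d) θ a z₀ ζ) ⊆ closedBall x R := by
    intro y hy
    have hy' : ζ (hgt e x y) * bt (g y) ≠ 0 := hy
    have h1 := hζ0 _ (left_ne_zero_of_mul hy')
    have h2 := K1 y (right_ne_zero_of_mul hy') h1.2
    refine mem_ball he (α := |z₀| + L) ?_ h2 hP' hR
    have h3 : |hgt e x y - z₀| ≤ L := by
      rcases hθ with h | h
      · rw [h, one_mul] at h1
        exact abs_le.2 ⟨by linarith [h1.1], h1.2⟩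
      · rw [h] at h1
        exact abs_le.2 ⟨by linarith [h1.2], by linarith [h1.1]⟩
    calc |hgt e x y| = |z₀ + (hgt e x y - z₀)| := by ring_nf
      _ ≤ |z₀| + |hgt e x y - z₀| := abs_add_le _ _
      _ ≤ _ := by linarith
  have hts : tsupport (tf e x d (P + d) θ a z₀ ζ) ⊆ closedBall x R :=
    closure_minimal hsupp isClosed_closedBall
  have hfc := tf_c1 he x hd (P + d) θ a z₀ hζc
  have hI2 := hW.div _ hfc hts
  -- the two weighted fluxes
  have c1 : Continuous fun y => η₁ (hgt e x y) * (e ⬝ᵥ W y) * bt (g y) :=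
    (fl_cont hW.cont hc1).mul hbc
  have c2 : Continuous fun y => η₂ (hgt e x y) * (e ⬝ᵥ W y) * bt (g y) :=
    (fl_cont hW.cont hc2).mul hbc
  have hmain : ∫ y in closedBall x R, (η₁ (hgt e x y) * (e ⬝ᵥ W y) * bt (g y)
      - η₂ (hgt e x y) * (e ⬝ᵥ W y) * bt (g y)) ≤ 0 := by
    rw [← hI2]
    refine setIntegral_mono_on ((int_cont c1 x R).sub (int_cont c2 x R)) ?_
      isClosed_closedBall.measurableSet fun y hy => ?_
    · refine int_cont ?_ x R
      exact (hfc.continuous_fderiv one_ne_zero).clm_apply hW.cont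
    · rw [tf_fderiv he x hd (P + d) θ a z₀ hζ' (hc1.sub hc2) y (W y)]
      have h1 : 0 ≤ ζ (hgt e x y) * (-tent (1 / 2) (1 / 2) (ga e x d (P + d) θ a z₀ y)
          * (((no e x y ⬝ᵥ W y) / nd e x d y - θ * a * (e ⬝ᵥ W y)) / d)) := by
        have h2 := nd_pos he x hd y
        have h3 : 0 ≤ a * (e ⬝ᵥ W y) - (fun i => θ / nd e x d y * no e x y i) ⬝ᵥ W y := by
          have h4 := hCP y hy (fun i => θ / nd e x d y * no e x y i) ?_ ?_
          · linarith
          · have h5 := no_e he x y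
            rw [dot3] at h5 ⊢
            linear_combination (θ / nd e x d y) * h5
          · have h5 := no_no he x y
            have h6 : (fun i => θ / nd e x d y * no e x y i) ⬝ᵥ
                (fun i => θ / nd e x d y * no e x y i)
                = (θ * θ) * (no e x y ⬝ᵥ no e x y) / nd e x d y ^ 2 := by
              simp only [dot3]
              field_simp
            rw [h6, h5, hθ2, one_mul, div_le_one (by positivity), nd_sq he x hd y]
            linarith [sq_nonneg d]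
        have h4 : ζ (hgt e x y) * (-tent (1 / 2) (1 / 2) (ga e x d (P + d) θ a z₀ y)
            * (((no e x y ⬝ᵥ W y) / nd e x d y - θ * a * (e ⬝ᵥ W y)) / d))
            = (θ * ζ (hgt e x y)) * tent (1 / 2) (1 / 2) (ga e x d (P + d) θ a z₀ y)
              * (a * (e ⬝ᵥ W y) - (fun i => θ / nd e x d y * no e x y i) ⬝ᵥ W y) / d := by
          have h7 : (fun i => θ / nd e x d y * no e x y i) ⬝ᵥ W y
              = θ * ((no e x y ⬝ᵥ W y) / nd e x d y) := by
            simp only [dot3]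
            ring
          rw [h7]
          have h8 : ζ (hgt e x y) * (-tent (1 / 2) (1 / 2) (ga e x d (P + d) θ a z₀ y)
            * (((no e x y ⬝ᵥ W y) / nd e x d y - θ * a * (e ⬝ᵥ W y)) / d))
            = (θ * θ) * (ζ (hgt e x y) * (-tent (1 / 2) (1 / 2) (ga e x d (P + d) θ a z₀ y)
            * (((no e x y ⬝ᵥ W y) / nd e x d y) / d)))
            + θ * ζ (hgt e x y) * tent (1 / 2) (1 / 2) (ga e x d (P + d) θ a z₀ y)
            * a * (e ⬝ᵥ W y) / d := by
            rw [hθ2]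
            ring
          rw [h8]
          ring
        rw [h4]
        have h9 := hζs (hgt e x y)
        have h10 := tent_bp'.nn (ga e x d (P + d) θ a z₀ y)
        positivity
      have h11 : (η₁ (hgt e x y) - η₂ (hgt e x y)) * (e ⬝ᵥ W y) * bt (ga e x d (P + d) θ a z₀ y)
        = η₁ (hgt e x y) * (e ⬝ᵥ W y) * bt (g y) - η₂ (hgt e x y) * (e ⬝ᵥ W y) * bt (g y) := by
        rw [hg]
        ring
      rw [h11]
      linarith
  rw [integral_sub (int_cont c1 x R) (int_cont c2 x R)] at hmain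
  have hA : fl R e x W η₁ P ≤ ∫ y in closedBall x R, η₁ (hgt e x y) * (e ⬝ᵥ W y) * bt (g y) := by
    refine fl_le hW.cont hc1 c1 (fun y hy => ?_) fun y hy hy2 => ?_
    · exact mul_nonneg (mul_nonneg (hn1 _) (hCP.nonneg ha hy)) (bt_nonneg _)
    · by_cases h0 : η₁ (hgt e x y) = 0
      · rw [h0]
        simp
      · rw [K2 y (hs1 _ h0) hy2, mul_one]
  have hB : ∫ y in closedBall x R, η₂ (hgt e x y) * (e ⬝ᵥ W y) * bt (g y)
      ≤ fl R e x W η₂ (P + 2 * d + a * L) := by
    refine le_fl hW.cont hc2 c2 (fun y hy hy2 => ?_) fun y hy hy2 => ?_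
    · exact mul_le_of_le_one_right (mul_nonneg (hn2 _) (hCP.nonneg ha hy)) (bt_le_one _)
    · by_cases h0 : η₂ (hgt e x y) = 0
      · rw [h0]
        simp
      · have h1 : bt (g y) = 0 := by
          by_contra hc
          exact hy2 (K1 y hc (hs2 _ h0))
        rw [h1, mul_zero]
  linarith

/-- comparison of the fluxes through sections of different shapes -/
lemma compare (he : e ⬝ᵥ e = 1) (ha : 0 < a) (hCP : CP a R e x W) (hW : WD R x W) {S P : ℝ}
    (hS : 0 < S) (hP : 0 ≤ P) {η₁ η₂ : ℝ → ℝ} (h1 : Bp (-S) S η₁) (h2 : Bp (-S) S η₂)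
    (hR : 5 * S + (P + 10 * a * S) ≤ R) :
    fl R e x W η₁ P ≤ fl R e x W η₂ (P + 10 * a * S) := by
  have ht : Bp S (2 * S) (tent (3 * S / 2) (S / 2)) := by
    have h3 := tent_bp (s := 3 * S / 2) (h := S / 2) (by positivity)
    exact h3.mono (by linarith) (by linarith)
  have haS : 0 < a * S := mul_pos ha hS
  have k1 := h1.mono (le_refl (-S)) (show S ≤ 2 * S by linarith)
  have k2 := h2.mono (le_refl (-S)) (show S ≤ 2 * S by linarith)
  have k3 := ht.mono (show -S ≤ S by linarith) (le_refl (2 * S))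
  have up : fl R e x W η₁ P ≤ fl R e x W (tent (3 * S / 2) (S / 2)) (P + 2 * (a * S) + a * (3 * S)) := by
    refine step (θ := 1) (z₀ := -S) (ζ := ze (-S) η₁ (tent (3 * S / 2) (S / 2))) he ha hCP hW
      (Or.inl rfl) (by positivity) hP haS h1.cont ht.cont h1.nn ht.nn (fun z hz => ?_)
      (fun z hz => ?_) (ze_deriv k1 k3) (fun z => ?_) (fun z hz => ?_) ?_
    · linarith [(h1.sup z hz).1]
    · linarith [(ht.sup z hz).2]
    · rw [one_mul]
      exact ze_nonneg h1 ht z
    · have := ze_supp k1 k3 hz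
      constructor <;> linarith [this.1, this.2]
    · rw [abs_neg, abs_of_pos hS]
      linarith
  have down : fl R e x W (tent (3 * S / 2) (S / 2)) (P + 5 * (a * S))
      ≤ fl R e x W η₂ (P + 5 * (a * S) + 2 * (a * S) + a * (3 * S)) := by
    refine step (θ := -1) (z₀ := 2 * S) (ζ := fun z => -ze (-S) η₂ (tent (3 * S / 2) (S / 2)) z)
      he ha hCP hW (Or.inr rfl) (by positivity) (by positivity) haS ht.cont h2.cont ht.nn h2.nn
      (fun z hz => ?_) (fun z hz => ?_) (fun z => ?_) (fun z => ?_) (fun z hz => ?_) ?_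
    · linarith [(ht.sup z hz).2]
    · linarith [(h2.sup z hz).1]
    · exact (ze_deriv k2 k3 z).fun_neg.congr_deriv (by ring)
    · have := ze_nonneg h2 ht z
      linarith
    · have h0 : ze (-S) η₂ (tent (3 * S / 2) (S / 2)) z ≠ 0 := fun h => hz (by rw [h, neg_zero])
      have := ze_supp k2 k3 h0
      constructor <;> linarith [this.1, this.2]
    · rw [abs_of_pos (by positivity)]
      linarith
  have e1 : P + 2 * (a * S) + a * (3 * S) = P + 5 * (a * S) := by ring
  have e2 : P + 5 * (a * S) + 2 * (a * S) + a * (3 * S) = P + 10 * a * S := by ring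
  rw [e1] at up
  rw [e2] at down
  exact up.trans down

end Pool.Agent.Q151.CC
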