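import Pool.Agent.Q151.CC.Pinch
import Pool.Agent.Q85.CC.Defs3

/-! The double cone condition: the field `sgn (e . w) w` is weakly free of divergence
(project CC of helper85; unoriented directions). -/

set_option autoImplicit false

open MeasureTheory Set Metric Filter Topology
open scoped ContDiff
open H459R3.NS Pool.Agent.W268.NS Pool.Agent.Q67.VD Pool.Agent.Q85.CC

namespace Pool.Agent.Q151.CC

/-! ### the unoriented field -/

/-- the component along the axis -/
noncomputable def tc (e : V) (v : V → V) (y : V) : ℝ := e ⬝ᵥ vort v y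

/-- the unoriented field -/
noncomputable def ud (e : V) (v : V → V) (y : V) : V := (tc e v y / |tc e v y|) • vort v y

/-- the retraction onto the cube -/
noncomputable def clp (x : V) (R : ℝ) (y : V) : V := fun i => max (x i - R) (min (x i + R) (y i))

lemma clp_mem {R : ℝ} (hR : 0 ≤ R) (x y : V) : clp x R y ∈ closedBall x R := by
  rw [mem_closedBall, dist_pi_le_iff hR]
  intro i
  rw [Real.dist_eq, abs_le]
  unfold clp
  constructor
  · have := le_max_left (x i - R) (min (x i + R) (y i))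
    linarith
  · have h : max (x i - R) (min (x i + R) (y i)) ≤ x i + R :=
      max_le (by linarith) (min_le_left _ _)
    linarith

lemma clp_eq {R : ℝ} (hR : 0 ≤ R) {x y : V} (hy : y ∈ closedBall x R) : clp x R y = y := by
  rw [mem_closedBall, dist_pi_le_iff hR] at hy
  funext i
  have h := hy i
  rw [Real.dist_eq, abs_le] at h
  unfold clp
  rw [min_eq_right (by linarith [h.2]), max_eq_right (by linarith [h.1])]

lemma clp_cont (x : V) (R : ℝ) : Continuous (clp x R) := by
  unfold clp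
  fun_prop

/-- the unoriented field, extended from the cube -/
noncomputable def uf (e x : V) (R : ℝ) (v : V → V) (y : V) : V := ud e v (clp x R y)

lemma norm_le_len (a : V) : ‖a‖ ≤ √(a ⬝ᵥ a) := by
  rw [pi_norm_le_iff_of_nonneg (Real.sqrt_nonneg _)]
  intro i
  rw [Real.norm_eq_abs]
  exact Real.abs_le_sqrt (coord_sq a i)

lemma norm_le_om (v : V → V) (y : V) : ‖vort v y‖ ≤ om v y := norm_le_len _

lemma sg_le (t : ℝ) : |(t / |t|)| ≤ 1 := by
  rw [abs_div, abs_abs]
  exact div_self_le_one _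

section dcone

variable {κ R : ℝ} {e x : V} {v : V → V}

lemma vort_le (hκ : 0 < κ) (h : DCone κ R e x v) {y : V} (hy : y ∈ closedBall x R) :
    ‖vort v y‖ ≤ 1 / κ * |tc e v y| := by
  have h1 := h.2 y (by rwa [mem_closedBall, dist_eq_norm] at hy)
  have h2 := norm_le_om v y
  rw [one_div, inv_mul_eq_div, le_div_iff₀ hκ]
  have h3 : κ * ‖vort v y‖ ≤ κ * om v y := by gcongr
  unfold tc
  linarith

lemma tc_cont (hv : ∀ i, ContDiff ℝ ∞ fun y => v y i) (e : V) : Continuous (tc e v) :=
  continuous_const.dotProduct (vort_cont hv)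

lemma ud_contOn (hv : ∀ i, ContDiff ℝ ∞ fun y => v y i) (hκ : 0 < κ) (h : DCone κ R e x v) :
    ContinuousOn (ud e v) (closedBall x R) := by
  intro y hy
  have hwc := vort_cont hv
  have htc := tc_cont hv e
  by_cases h0 : tc e v y = 0
  · have h1 : vort v y = 0 := by
      have := vort_le hκ h hy
      rw [h0, abs_zero, mul_zero] at this
      exact norm_le_zero_iff.1 this
    have h2 : ud e v y = 0 := by
      unfold ud
      rw [h1, smul_zero]
    rw [ContinuousWithinAt, h2, tendsto_zero_iff_norm_tendsto_zero]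
    have h3 : Tendsto (fun z => ‖vort v z‖) (𝓝[closedBall x R] y) (𝓝 0) := by
      have := (hwc.norm.tendsto y).mono_left (nhdsWithin_le_nhds (s := closedBall x R))
      rwa [h1, norm_zero] at this
    refine squeeze_zero (fun z => norm_nonneg _) (fun z => ?_) h3
    unfold ud
    rw [norm_smul, Real.norm_eq_abs]
    exact mul_le_of_le_one_left (norm_nonneg _) (sg_le _)
  · apply ContinuousAt.continuousWithinAt
    unfold ud
    exact (htc.continuousAt.div htc.abs.continuousAt (by simpa using h0)).smul hwc.continuousAt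

lemma uf_cont (hv : ∀ i, ContDiff ℝ ∞ fun y => v y i) (hκ : 0 < κ) (hR : 0 ≤ R)
    (h : DCone κ R e x v) : Continuous (uf e x R v) :=
  (ud_contOn hv hκ h).comp_continuous (clp_cont x R) (clp_mem hR x)

lemma uf_eq (hR : 0 ≤ R) {y : V} (hy : y ∈ closedBall x R) : uf e x R v y = ud e v y := by
  unfold uf
  rw [clp_eq hR hy]

/-! ### the smooth sign -/

/-- the smooth sign -/
noncomputable def ps (δ t : ℝ) : ℝ := t / √(t ^ 2 + δ ^ 2)

/-- its derivative -/
noncomputable def ps' (δ t : ℝ) : ℝ := δ ^ 2 / ((t ^ 2 + δ ^ 2) * √(t ^ 2 + δ ^ 2))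

lemma ps_deriv {δ : ℝ} (hδ : 0 < δ) (t : ℝ) : HasDerivAt (ps δ) (ps' δ t) t := by
  have h0 : 0 < t ^ 2 + δ ^ 2 := by positivity
  have h1 : HasDerivAt (fun t : ℝ => t ^ 2 + δ ^ 2) (2 * t) t := by
    simpa using (hasDerivAt_pow 2 t).add_const (δ ^ 2)
  have h2 := (hasDerivAt_id t).div (h1.sqrt h0.ne') (Real.sqrt_pos.2 h0).ne'
  refine h2.congr_deriv ?_
  unfold ps'
  have h3 : √(t ^ 2 + δ ^ 2) ^ 2 = t ^ 2 + δ ^ 2 := Real.sq_sqrt h0.le
  have h4 : √(t ^ 2 + δ ^ 2) ≠ 0 := (Real.sqrt_pos.2 h0).ne'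
  simp only [id]
  rw [h3, div_eq_div_iff h0.ne' (by positivity)]
  field_simp
  rw [h3]
  ring

lemma ps_smooth {δ : ℝ} (hδ : 0 < δ) : ContDiff ℝ 1 (ps δ) := by
  refine contDiff_of_deriv (ps_deriv hδ) ?_
  unfold ps'
  refine continuous_const.div (by fun_prop) fun t => ?_
  positivity

lemma ps_le {δ : ℝ} (hδ : 0 < δ) (t : ℝ) : |ps δ t| ≤ 1 := by
  unfold ps
  rw [abs_div, abs_of_nonneg (Real.sqrt_nonneg _)]
  apply div_le_one_of_le₀ _ (Real.sqrt_nonneg _)
  apply Real.abs_le_sqrt
  nlinarith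

lemma ps'_le {δ : ℝ} (hδ : 0 < δ) (t : ℝ) : |t| * ps' δ t ≤ 1 := by
  unfold ps'
  have h0 : 0 < t ^ 2 + δ ^ 2 := by positivity
  rw [← mul_div_assoc]
  apply div_le_one_of_le₀ _ (by positivity)
  have h1 : |t| ≤ √(t ^ 2 + δ ^ 2) := Real.abs_le_sqrt (by nlinarith)
  have h2 : δ ^ 2 ≤ t ^ 2 + δ ^ 2 := by nlinarith
  calc |t| * δ ^ 2 ≤ √(t ^ 2 + δ ^ 2) * (t ^ 2 + δ ^ 2) := by gcongr
    _ = _ := mul_comm _ _

lemma ps'_nonneg (δ t : ℝ) : 0 ≤ ps' δ t := by
  unfold ps'
  positivity

/-- the small parameter -/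
noncomputable def dl (n : ℕ) : ℝ := 1 / ((n : ℝ) + 1)

lemma dl_pos (n : ℕ) : 0 < dl n := by
  unfold dl
  positivity

lemma dl_lim : Tendsto dl atTop (𝓝 0) := tendsto_one_div_add_atTop_nhds_zero_nat

lemma ps_lim (t : ℝ) : Tendsto (fun n => ps (dl n) t) atTop (𝓝 (t / |t|)) := by
  by_cases h0 : t = 0
  · simp [ps, h0]
  · unfold ps
    have h1 : Tendsto (fun n => √(t ^ 2 + dl n ^ 2)) atTop (𝓝 |t|) := by
      have h2 : Tendsto (fun n => √(t ^ 2 + dl n ^ 2)) atTop (𝓝 √(t ^ 2 + 0 ^ 2)) :=
        (Real.continuous_sqrt.tendsto _).comp (tendsto_const_nhds.add (dl_lim.pow 2))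
      rwa [zero_pow two_ne_zero, add_zero, Real.sqrt_sq_eq_abs] at h2
    exact tendsto_const_nhds.div h1 (by simpa using h0)

lemma ps'_lim {t : ℝ} (h0 : t ≠ 0) : Tendsto (fun n => ps' (dl n) t) atTop (𝓝 0) := by
  unfold ps'
  have h1 : Tendsto (fun n => √(t ^ 2 + dl n ^ 2)) atTop (𝓝 √(t ^ 2 + 0 ^ 2)) :=
    (Real.continuous_sqrt.tendsto _).comp (tendsto_const_nhds.add (dl_lim.pow 2))
  have h2 : Tendsto (fun n => t ^ 2 + dl n ^ 2) atTop (𝓝 (t ^ 2 + 0 ^ 2)) :=
    tendsto_const_nhds.add (dl_lim.pow 2)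
  have h3 := (dl_lim.pow 2).div (h2.mul h1) (by positivity)
  rwa [zero_pow two_ne_zero, zero_div] at h3

/-! ### the unoriented field is weakly free of divergence -/

lemma vort_df (hv : ∀ i, ContDiff ℝ ∞ fun y => v y i) : DF (vort v) := by
  have h := sw_df hv 0 0
  have e : sw v 0 0 = vort v := by
    funext y i
    simp [sw]
  rwa [e] at h

lemma tc_smooth (hv : ∀ i, ContDiff ℝ ∞ fun y => v y i) (e : V) : ContDiff ℝ 1 (tc e v) := by
  have h := (vort_df hv).smooth
  have h1 : tc e v = fun y => e 0 * vort v y 0 + e 1 * vort v y 1 + e 2 * vort v y 2 := by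
    funext y
    simp only [tc, dot3]
  rw [h1]
  exact ((contDiff_const.mul (h 0)).add (contDiff_const.mul (h 1))).add
    (contDiff_const.mul (h 2))

lemma uf_wd (hv : ∀ i, ContDiff ℝ ∞ fun y => v y i) (hκ : 0 < κ) (hR : 0 ≤ R)
    (h : DCone κ R e x v) : WD R x (uf e x R v) := by
  refine ⟨uf_cont hv hκ hR h, fun F hF hts => ?_⟩
  have hwd := (vort_df hv).wd R x
  have ht := tc_smooth hv e
  have cF : Continuous fun y => fderiv ℝ F y (vort v y) :=
    (hF.continuous_fderiv one_ne_zero).clm_apply hwd.cont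
  have cT : Continuous fun y => fderiv ℝ (tc e v) y (vort v y) :=
    (ht.continuous_fderiv one_ne_zero).clm_apply hwd.cont
  have hms : MeasurableSet (closedBall x R) := isClosed_closedBall.measurableSet
  have hI : ∀ n, ∫ y in closedBall x R, ps (dl n) (tc e v y) * fderiv ℝ F y (vort v y)
      = -∫ y in closedBall x R, F y * (ps' (dl n) (tc e v y) * fderiv ℝ (tc e v) y (vort v y)) := by
    intro n
    have hG : ContDiff ℝ 1 fun y => ps (dl n) (tc e v y) := (ps_smooth (dl_pos n)).comp ht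
    have h1 := hwd.div (fun y => F y * ps (dl n) (tc e v y)) (hF.mul hG)
      ((tsupport_mul_subset_left).trans hts)
    have h2 : ∀ y, fderiv ℝ (fun y => F y * ps (dl n) (tc e v y)) y (vort v y)
        = F y * (ps' (dl n) (tc e v y) * fderiv ℝ (tc e v) y (vort v y))
          + ps (dl n) (tc e v y) * fderiv ℝ F y (vort v y) := by
      intro y
      have a1 := (hF.differentiable one_ne_zero y).hasFDerivAt
      have a2 := (ht.differentiable one_ne_zero y).hasFDerivAt
      have a3 : HasFDerivAt (fun y => ps (dl n) (tc e v y)) _ y :=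
        (ps_deriv (dl_pos n) (tc e v y)).comp_hasFDerivAt y a2
      have a4 : HasFDerivAt (fun y => F y * ps (dl n) (tc e v y)) _ y := a1.fun_mul a3
      rw [a4.fderiv]
      simp only [add_apply, smul_apply, smul_eq_mul]
    simp_rw [h2] at h1
    have cps : Continuous fun y => ps' (dl n) (tc e v y) := by
      have : Continuous (ps' (dl n)) := by
        unfold ps'
        refine continuous_const.div (by fun_prop) fun t => ?_
        have := dl_pos n
        positivity
      exact this.comp ht.continuous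
    have i1 : Integrable (fun y => F y * (ps' (dl n) (tc e v y) * fderiv ℝ (tc e v) y (vort v y)))
        (volume.restrict (closedBall x R)) := int_cont (hF.continuous.mul (cps.mul cT)) x R
    have i2 : Integrable (fun y => ps (dl n) (tc e v y) * fderiv ℝ F y (vort v y))
        (volume.restrict (closedBall x R)) := int_cont (hG.continuous.mul cF) x R
    rw [integral_add i1 i2] at h1
    linarith
  have hL : Tendsto (fun n => ∫ y in closedBall x R,
      ps (dl n) (tc e v y) * fderiv ℝ F y (vort v y)) atTop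
      (𝓝 (∫ y in closedBall x R, fderiv ℝ F y (uf e x R v y))) := by
    refine tendsto_integral_of_dominated_convergence (fun y => |fderiv ℝ F y (vort v y)|)
      (fun n => ?_) ?_ (fun n => ?_) ?_
    · have hG : ContDiff ℝ 1 fun y => ps (dl n) (tc e v y) := (ps_smooth (dl_pos n)).comp ht
      exact (hG.continuous.mul cF).aestronglyMeasurable
    · exact int_cont cF.abs x R
    · refine Eventually.of_forall fun y => ?_
      rw [Real.norm_eq_abs, abs_mul]
      exact mul_le_of_le_one_left (abs_nonneg _) (ps_le (dl_pos n) _)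
    · refine (ae_restrict_iff' hms).2 (Eventually.of_forall fun y hy => ?_)
      rw [uf_eq hR hy]
      unfold ud
      rw [map_smul, smul_eq_mul]
      exact (ps_lim _).mul_const _
  have hJ : Tendsto (fun n => ∫ y in closedBall x R,
      F y * (ps' (dl n) (tc e v y) * fderiv ℝ (tc e v) y (vort v y))) atTop
      (𝓝 (∫ y in closedBall x R, (0 : ℝ))) := by
    refine tendsto_integral_of_dominated_convergence
      (fun y => |F y| * (1 / κ * ‖fderiv ℝ (tc e v) y‖)) (fun n => ?_) ?_ (fun n => ?_) ?_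
    · have cps : Continuous fun y => ps' (dl n) (tc e v y) := by
        have : Continuous (ps' (dl n)) := by
          unfold ps'
          refine continuous_const.div (by fun_prop) fun t => ?_
          have := dl_pos n
          positivity
        exact this.comp ht.continuous
      exact (hF.continuous.mul (cps.mul cT)).aestronglyMeasurable
    · exact int_cont (hF.continuous.abs.mul
        (continuous_const.mul (ht.continuous_fderiv one_ne_zero).norm)) x R
    · refine (ae_restrict_iff' hms).2 (Eventually.of_forall fun y hy => ?_)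
      rw [Real.norm_eq_abs, abs_mul, abs_mul, abs_of_nonneg (ps'_nonneg _ _)]
      refine mul_le_mul_of_nonneg_left ?_ (abs_nonneg _)
      have b1 : |fderiv ℝ (tc e v) y (vort v y)| ≤ ‖fderiv ℝ (tc e v) y‖ * (1 / κ * |tc e v y|) := by
        calc _ ≤ ‖fderiv ℝ (tc e v) y‖ * ‖vort v y‖ := ContinuousLinearMap.le_opNorm _ _
          _ ≤ _ := by
            gcongr
            exact vort_le hκ h hy
      calc ps' (dl n) (tc e v y) * |fderiv ℝ (tc e v) y (vort v y)|
          ≤ ps' (dl n) (tc e v y) * (‖fderiv ℝ (tc e v) y‖ * (1 / κ * |tc e v y|)) := by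
            gcongr
            exact ps'_nonneg _ _
        _ = (|tc e v y| * ps' (dl n) (tc e v y)) * (1 / κ * ‖fderiv ℝ (tc e v) y‖) := by ring
        _ ≤ 1 * (1 / κ * ‖fderiv ℝ (tc e v) y‖) := by
            gcongr
            exact ps'_le (dl_pos n) _
        _ = _ := one_mul _
    · refine (ae_restrict_iff' hms).2 (Eventually.of_forall fun y hy => ?_)
      by_cases h0 : tc e v y = 0
      · have h1 : vort v y = 0 := by
          have := vort_le hκ h hy
          rw [h0, abs_zero, mul_zero] at this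
          exact norm_le_zero_iff.1 this
        simp [h1]
      · have := (((ps'_lim h0).mul_const (fderiv ℝ (tc e v) y (vort v y))).const_mul (F y))
        rwa [zero_mul, mul_zero] at this
  rw [integral_zero] at hJ
  have h3 : Tendsto (fun n => ∫ y in closedBall x R,
      ps (dl n) (tc e v y) * fderiv ℝ F y (vort v y)) atTop (𝓝 (-0)) := by
    simp_rw [hI]
    exact hJ.neg
  rw [neg_zero] at h3
  exact tendsto_nhds_unique hL h3

end dcone

/-! ### a continuous field in a cone, weakly free of divergence -/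

/-- the field `W` lies in a cone, has no divergence, and `|W|` is `om v` -/
structure CF (κ R : ℝ) (e x : V) (v W : V → V) : Prop where
  unit : e ⬝ᵥ e = 1
  wd : WD R x W
  up : ∀ y ∈ closedBall x R, ∀ n : V, n ⬝ᵥ n ≤ 1 → n ⬝ᵥ W y ≤ om v y
  lo : ∀ y ∈ closedBall x R, κ * om v y ≤ e ⬝ᵥ W y

lemma uf_cf {κ R : ℝ} {e x : V} {v : V → V} (hv : ∀ i, ContDiff ℝ ∞ fun y => v y i) (hκ : 0 < κ)
    (hR : 0 ≤ R) (h : DCone κ R e x v) : CF κ R e x v (uf e x R v) := by
  refine ⟨h.1, uf_wd hv hκ hR h, fun y hy n hn => ?_, fun y hy => ?_⟩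
  · rw [uf_eq hR hy]
    unfold ud
    rw [dotProduct_smul, smul_eq_mul]
    have h1 : |n ⬝ᵥ vort v y| ≤ om v y := by
      rw [abs_le]
      refine ⟨?_, dot_le_om hn v y⟩
      have h2 := dot_le_om (n := -n) (by rwa [neg_dotProduct_neg]) v y
      rw [neg_dotProduct] at h2
      linarith
    calc tc e v y / |tc e v y| * (n ⬝ᵥ vort v y)
        ≤ |tc e v y / |tc e v y| * (n ⬝ᵥ vort v y)| := le_abs_self _
      _ = |(tc e v y / |tc e v y|)| * |n ⬝ᵥ vort v y| := abs_mul _ _
      _ ≤ 1 * |n ⬝ᵥ vort v y| := by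
          gcongr
          exact sg_le _
      _ ≤ om v y := by rwa [one_mul]
  · rw [uf_eq hR hy]
    have h1 := h.2 y (by rwa [mem_closedBall, dist_eq_norm] at hy)
    unfold ud
    rw [dotProduct_smul, smul_eq_mul]
    refine h1.trans (le_of_eq ?_)
    change |tc e v y| = tc e v y / |tc e v y| * tc e v y
    by_cases h0 : tc e v y = 0
    · rw [h0]
      simp
    · have h2 : |tc e v y| ≠ 0 := by simpa using h0
      field_simp
      rw [sq_abs]

section CF

variable {κ R : ℝ} {e x : V} {v W : V → V}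

lemma CF.om_le (hκ : 0 < κ) (h : CF κ R e x v W) {y : V} (hy : y ∈ closedBall x R) :
    om v y ≤ 1 / κ * (e ⬝ᵥ W y) := by
  have h1 := h.lo y hy
  rw [one_div, inv_mul_eq_div, le_div_iff₀ hκ]
  linarith

lemma CF.cp (hκ : 0 < κ) (h : CF κ R e x v W) : CP (1 / κ) R e x W :=
  fun y hy n _ hn1 => (h.up y hy n hn1).trans (h.om_le hκ hy)

/-- the annulus -/
lemma CF.annulus (hv : ∀ i, ContDiff ℝ ∞ fun y => v y i)
    (hκ : 0 < κ) (hcf : CF κ R e x v W) {s w P P' : ℝ} (hw : 0 < w) (hP : 0 ≤ P)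
    (hPP : P ≤ P') (hR : |s| + w + P' ≤ R) :
    ∫ y in Disc e x s w P' \ Disc e x s w P, om v y ≤ 4 * (1 / κ) * w *
      (fl R e x W (tent s (2 * w)) P' - fl R e x W (tent s (2 * w)) P) := by
  have he := hcf.unit
  have hW := hcf.wd.cont
  have hb := tent_bp (s := s) (h := 2 * w) (by positivity)
  have hcp := hcf.cp hκ
  have ha : 0 < 1 / κ := by positivity
  have hsub : Disc e x s w P' \ Disc e x s w P ⊆ closedBall x R := by
    rintro y ⟨hy, -⟩
    have h1 : |hgt e x y - s| ≤ w := hy.1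
    refine mem_ball he (α := |s| + w) ?_ hy.2 (hP.trans hPP) hR
    calc |hgt e x y| = |s + (hgt e x y - s)| := by ring_nf
      _ ≤ |s| + |hgt e x y - s| := abs_add_le _ _
      _ ≤ _ := by linarith
  have hD : MeasurableSet (Disc e x s w P' \ Disc e x s w P) :=
    (disc_meas e x s w P').diff (disc_meas e x s w P)
  have h1 : ∫ y in Disc e x s w P' \ Disc e x s w P, om v y = ∫ y in closedBall x R,
      (Disc e x s w P' \ Disc e x s w P).indicator (om v) y := by
    rw [setIntegral_indicator hD, inter_eq_right.2 hsub]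
  have hi : ∀ P : ℝ, IntegrableOn ({y | pr2 e x y ≤ P ^ 2}.indicator
      (fun y => tent s (2 * w) (hgt e x y) * (e ⬝ᵥ W y))) (closedBall x R) := fun P =>
    (int_cont (fl_cont hW hb.cont) x R).indicator (cyl_meas e x P)
  unfold fl
  rw [h1, ← integral_sub (hi P') (hi P), ← integral_const_mul]
  refine setIntegral_mono_on ((int_cont (om_cont hv) x R).indicator hD)
    (((hi P').sub (hi P)).const_mul _) isClosed_closedBall.measurableSet fun y hy => ?_
  have h0 := hcp.nonneg ha hy
  have h3 : 0 ≤ tent s (2 * w) (hgt e x y) * (e ⬝ᵥ W y) := mul_nonneg (hb.nn _) h0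
  by_cases hyD : y ∈ Disc e x s w P' \ Disc e x s w P
  · rw [indicator_of_mem hyD]
    have h4 : pr2 e x y ≤ P' ^ 2 := hyD.1.2
    have h5 : |hgt e x y - s| ≤ w := hyD.1.1
    have h6 : ¬ pr2 e x y ≤ P ^ 2 := fun h => hyD.2 ⟨h5, h⟩
    rw [indicator_of_mem (by exact h4), indicator_of_notMem (by exact h6), sub_zero]
    have h7 := tent_ge (s := s) (h := 2 * w) (by positivity) (z := hgt e x y) (by linarith)
    calc om v y ≤ 1 / κ * (e ⬝ᵥ W y) := hcf.om_le hκ hy
      _ = 4 * (1 / κ) * w * (1 / (2 * (2 * w)) * (e ⬝ᵥ W y)) := by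
          field_simp
          ring
      _ ≤ 4 * (1 / κ) * w * (tent s (2 * w) (hgt e x y) * (e ⬝ᵥ W y)) := by gcongr
  · rw [indicator_of_notMem hyD]
    apply mul_nonneg (by positivity)
    rw [sub_nonneg]
    by_cases h4 : pr2 e x y ≤ P ^ 2
    · have h5 : pr2 e x y ≤ P' ^ 2 := h4.trans (by gcongr)
      rw [indicator_of_mem (by exact h4), indicator_of_mem (by exact h5)]
    · rw [indicator_of_notMem (by exact h4)]
      exact indicator_apply_nonneg fun _ => h3

/-- the flux in a thin disc -/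
lemma CF.disc_flux (hv : ∀ i, ContDiff ℝ ∞ fun y => v y i)
    (hcf : CF κ R e x v W) {s w P : ℝ} (hw : 0 < w) (hP : 0 ≤ P)
    (hR : |s| + w + P ≤ R) :
    w * fl R e x W (tent s w) P ≤ ∫ y in Disc e x s w P, om v y := by
  have he := hcf.unit
  have hW := hcf.wd.cont
  have hb := tent_bp (s := s) hw
  have hsub : Disc e x s w P ⊆ closedBall x R := by
    rintro y hy
    have h1 : |hgt e x y - s| ≤ w := hy.1
    refine mem_ball he (α := |s| + w) ?_ hy.2 hP hR
    calc |hgt e x y| = |s + (hgt e x y - s)| := by ring_nf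
      _ ≤ |s| + |hgt e x y - s| := abs_add_le _ _
      _ ≤ _ := by linarith
  have hD := disc_meas e x s w P
  have h1 : ∫ y in Disc e x s w P, om v y = ∫ y in closedBall x R,
      (Disc e x s w P).indicator (om v) y := by
    rw [setIntegral_indicator hD, inter_eq_right.2 hsub]
  have i1 : IntegrableOn ({y | pr2 e x y ≤ P ^ 2}.indicator
      (fun y => tent s w (hgt e x y) * (e ⬝ᵥ W y))) (closedBall x R) :=
    (int_cont (fl_cont hW hb.cont) x R).indicator (cyl_meas e x P)
  unfold fl
  rw [h1, ← integral_const_mul w]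
  refine setIntegral_mono_on (i1.const_mul w)
    ((int_cont (om_cont hv) x R).indicator hD) isClosed_closedBall.measurableSet fun y hy => ?_
  have h0 := om_nonneg v y
  by_cases h2 : pr2 e x y ≤ P ^ 2
  · rw [indicator_of_mem (by exact h2)]
    by_cases h3 : tent s w (hgt e x y) = 0
    · rw [h3]
      simp only [zero_mul, mul_zero]
      exact indicator_apply_nonneg fun _ => h0
    · have h4 := tent_supp hw h3
      have h5 : y ∈ Disc e x s w P := ⟨abs_le.2 ⟨by linarith [h4.1], by linarith [h4.2]⟩, h2⟩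
      rw [indicator_of_mem h5, ← mul_assoc]
      have h7 : w * tent s w (hgt e x y) ≤ 1 := by
        calc w * tent s w (hgt e x y) ≤ w * (1 / w) := by
              gcongr
              exact tent_le hw _
          _ = 1 := by field_simp
      have h8 : 0 ≤ w * tent s w (hgt e x y) := mul_nonneg hw.le (hb.nn _)
      have h9 := hcf.up y hy e (by rw [he])
      calc (w * tent s w (hgt e x y)) * (e ⬝ᵥ W y)
          ≤ (w * tent s w (hgt e x y)) * om v y := by gcongr
        _ ≤ 1 * om v y := by gcongr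
        _ = _ := one_mul _
  · rw [indicator_of_notMem (by exact h2)]
    simp only [mul_zero]
    exact indicator_apply_nonneg fun _ => h0

/-- the concentration gives a flux -/
lemma CF.conc_flux (hv : ∀ i, ContDiff ℝ ∞ fun y => v y i)
    (hκ : 0 < κ) (hcf : CF κ R e x v W) {ρ : ℝ} (hρ : 0 < ρ) (hρR : ρ ≤ R) :
    κ / (8 * ρ) * (∫ y in closedBall x ρ, om v y) ≤ fl R e x W (tent 0 (4 * ρ)) (2 * ρ) := by
  have he := hcf.unit
  have hW := hcf.wd.cont
  have hb := tent_bp (s := 0) (h := 4 * ρ) (by positivity)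
  have hcp := hcf.cp hκ
  have h1 : ∫ y in closedBall x ρ, om v y = ∫ y in closedBall x R,
      (closedBall x ρ).indicator (om v) y := by
    rw [setIntegral_indicator isClosed_closedBall.measurableSet,
      inter_eq_right.2 (closedBall_subset_closedBall hρR)]
  rw [h1, ← integral_const_mul]
  unfold fl
  refine setIntegral_mono_on
    (((int_cont (om_cont hv) x R).indicator isClosed_closedBall.measurableSet).const_mul _)
    ((int_cont (fl_cont hW hb.cont) x R).indicator (cyl_meas e x (2 * ρ)))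
    isClosed_closedBall.measurableSet fun y hy => ?_
  have h0 : 0 ≤ e ⬝ᵥ W y := hcp.nonneg (by positivity) hy
  by_cases h2 : y ∈ closedBall x ρ
  · have h3 := hgt_le_of_ball he hρ.le h2
    rw [indicator_of_mem h2, indicator_of_mem (by exact h3.2)]
    have h4 := tent_ge (s := 0) (h := 4 * ρ) (by positivity) (z := hgt e x y)
      (by rw [sub_zero]; linarith [h3.1])
    calc κ / (8 * ρ) * om v y ≤ κ / (8 * ρ) * (1 / κ * (e ⬝ᵥ W y)) := by
          gcongr
          exact hcf.om_le hκ hy
      _ = 1 / (2 * (4 * ρ)) * (e ⬝ᵥ W y) := by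
          field_simp
          ring
      _ ≤ _ := by gcongr
  · rw [indicator_of_notMem h2, mul_zero]
    exact indicator_apply_nonneg fun _ => mul_nonneg (hb.nn _) h0

end CF

theorem pinchD : StmPinchD := by
  intro κ hκ hκ1
  obtain ⟨σ, hσ⟩ : ∃ σ, σ = κ / 240 := ⟨_, rfl⟩
  obtain ⟨lam, hlam⟩ : ∃ lam, lam = σ / 64 := ⟨_, rfl⟩
  obtain ⟨a, hadef⟩ : ∃ a, a = 1 / κ := ⟨_, rfl⟩
  have hσ0 : 0 < σ := by rw [hσ]; positivity
  have hlam0 : 0 < lam := by rw [hlam]; positivity
  have hσ1 : σ ≤ 1 / 240 := by rw [hσ]; linarith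
  have hlam1 : lam ≤ 1 / 64 := by rw [hlam]; linarith
  have ha : 0 < a := by rw [hadef]; positivity
  have haσ : a * σ = 1 / 240 := by rw [hadef, hσ]; field_simp
  have haκ : a * κ = 1 := by rw [hadef]; field_simp
  refine ⟨σ, lam, κ / 8, hσ0, by linarith, hlam0, by linarith, by positivity, by linarith, ?_⟩
  intro K η τ hK hη hη1 hτ hτ1
  obtain ⟨N, hN⟩ := exists_nat_ge (16 * a * (K + 8) / (σ * τ) + 1)
  refine ⟨N, ?_⟩
  intro v x e R ρ hv hR hR1 hcone hom hρ hρN hconc
  have hvs : ∀ i, ContDiff ℝ ∞ fun y => v y i := fun i => (hv.1 i).smooth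
  have hcf := uf_cf hvs hκ hR.le hcone
  obtain ⟨W, hWdef⟩ : ∃ W, W = uf e x R v := ⟨_, rfl⟩
  rw [← hWdef] at hcf
  have he := hcf.unit
  have hdf := hcf.wd
  have hcp : CP a R e x W := by rw [hadef]; exact hcf.cp hκ
  have hN1 : (1 : ℝ) ≤ N := by
    have : 0 ≤ 16 * a * (K + 8) / (σ * τ) := by positivity
    linarith
  -- the fluxes
  obtain ⟨r, hr⟩ : ∃ r : ℕ → ℝ, r = fun k => lam ^ k * (R / 4) := ⟨_, rfl⟩
  obtain ⟨A, hA⟩ : ∃ A : ℕ → ℝ, A = fun k => fl R e x W (tent 0 (σ * r k)) (r k) := ⟨_, rfl⟩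
  have hr0 : ∀ k, 0 < r k := fun k => by rw [hr]; positivity
  have hrR : ∀ k, r k ≤ R / 4 := by
    intro k
    rw [hr]
    have : lam ^ k ≤ 1 := pow_le_one₀ hlam0.le (by linarith)
    simp only
    nlinarith
  have hrs : ∀ k, r (k + 1) = lam * r k := by
    intro k
    rw [hr]
    simp only [pow_succ]
    ring
  have hA0 : A 0 ≤ 4 / σ * (K + 8) := by
    have h1 : A 0 ≤ 1 / (σ * r 0) * ∫ y in closedBall x R, e ⬝ᵥ W y := by
      rw [hA]
      refine fl_up ha hcp hdf.cont (mul_pos hσ0 (hr0 0)) he (hr0 0).le ?_ le_rfl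
      have := hrR 0
      nlinarith [hr0 0]
    have h2 : ∫ y in closedBall x R, e ⬝ᵥ W y ≤ K * R := by
      refine le_trans ?_ (hom R hR le_rfl)
      refine setIntegral_mono_on (int_cont (continuous_const.dotProduct hdf.cont) x R)
        (int_cont (om_cont hvs) x R) isClosed_closedBall.measurableSet
        fun y hy => ?_
      exact hcf.up y hy e (by rw [he])
    have h5 : r 0 = R / 4 := by rw [hr]; simp
    calc A 0 ≤ 1 / (σ * r 0) * (K * R) := by
          refine h1.trans ?_
          have := hr0 0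
          gcongr
      _ = 4 / σ * K := by
          rw [h5]
          field_simp
      _ ≤ 4 / σ * (K + 8) := by
          gcongr
          linarith
  have hAn : ∀ k, 0 ≤ A k := by
    intro k
    rw [hA]
    exact fl_nonneg ha hcp (tent_bp (mul_pos hσ0 (hr0 k))).nn _
  obtain ⟨k, hkN, hk⟩ : ∃ k < N, A k - A (k + 1) ≤ A 0 / N := by
    by_contra hc
    push Not at hc
    have h1 : ∑ k ∈ Finset.range N, (A k - A (k + 1)) = A 0 - A N := Finset.sum_range_sub' A N
    have hN0 : 0 < N := by
      by_contra h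
      have : N = 0 := by omega
      rw [this] at hN1
      norm_num at hN1
    have h2 : ∑ k ∈ Finset.range N, A 0 / (N : ℝ) < ∑ k ∈ Finset.range N, (A k - A (k + 1)) :=
      Finset.sum_lt_sum_of_nonempty ⟨0, Finset.mem_range.2 hN0⟩ fun k hk =>
        hc k (Finset.mem_range.1 hk)
    rw [h1, Finset.sum_const, Finset.card_range, nsmul_eq_mul] at h2
    have h3 : (N : ℝ) * (A 0 / N) = A 0 := by field_simp
    rw [h3] at h2
    linarith [hAn N]
  refine ⟨k, hkN, ?_⟩
  intro s w hs1 hs2 hw hw1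
  have ek : lam ^ k * (R / 4) = r k := by rw [hr]
  rw [ek] at hs1 hs2 hw1 ⊢
  obtain ⟨q, hq⟩ : ∃ q, q = r k := ⟨_, rfl⟩
  rw [← hq] at hs1 hs2 hw1 ⊢
  have hq0 : 0 < q := by rw [hq]; exact hr0 k
  have hqR : q ≤ R / 4 := by rw [hq]; exact hrR k
  have hσq : 0 < σ * q := mul_pos hσ0 hq0
  have hs0 : 0 < s := hσq.trans_le hs1
  obtain ⟨S, hS⟩ : ∃ S, S = 3 * (σ * q) := ⟨_, rfl⟩
  have hS0 : 0 < S := by rw [hS]; positivity
  have h10 : 10 * a * S = q / 8 := by
    rw [hS]
    calc 10 * a * (3 * (σ * q)) = 30 * (a * σ) * q := by ring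
      _ = _ := by rw [haσ]; ring
  have hS5 : 5 * S ≤ q / 16 := by
    rw [hS]
    nlinarith
  -- the comparison
  have comp : ∀ η₁ η₂ : ℝ → ℝ, Bp (-S) S η₁ → Bp (-S) S η₂ →
      ∀ P P' : ℝ, 0 ≤ P → P + q / 8 ≤ P' → P' ≤ q → fl R e x W η₁ P ≤ fl R e x W η₂ P' := by
    intro η₁ η₂ h1 h2 P P' hP hPP hP'
    have h3 := compare he ha hcp hdf hS0 hP h1 h2 (by rw [h10]; linarith)
    rw [h10] at h3
    exact h3.trans (fl_mono ha hcp hdf.cont h2.cont h2.nn (by linarith) hPP)
  have bk : Bp (-S) S (tent 0 (σ * q)) := (tent_bp hσq).mono (by linarith) (by linarith)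
  have bk1 : Bp (-S) S (tent 0 (σ * r (k + 1))) := by
    have h1 : r (k + 1) ≤ q := by
      rw [hrs, ← hq]
      nlinarith
    have h2 : σ * r (k + 1) ≤ σ * q := by gcongr
    exact (tent_bp (mul_pos hσ0 (hr0 _))).mono (by linarith) (by linarith)
  have bs2 : Bp (-S) S (tent s (2 * w)) := (tent_bp (by positivity)).mono (by linarith) (by linarith)
  have bs1 : Bp (-S) S (tent s w) := (tent_bp hw).mono (by linarith) (by linarith)
  have hρq : ρ ≤ 4 * (lam * q) := by
    have h1 : lam ^ N ≤ lam ^ (k + 1) := pow_le_pow_of_le_one hlam0.le (by linarith) hkN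
    calc ρ ≤ lam ^ N * R := hρN
      _ ≤ lam ^ (k + 1) * R := by gcongr
      _ = 4 * (lam * q) := by
        rw [hq, hr]
        simp only [pow_succ]
        ring
  have hlq : lam * q ≤ q / 64 := by nlinarith
  have hlq2 : lam * q = σ * q / 64 := by rw [hlam]; ring
  have hρR : ρ ≤ R := by linarith
  have bρ : Bp (-S) S (tent 0 (4 * ρ)) := (tent_bp (by positivity)).mono (by linarith) (by linarith)
  have hsabs : |s| = s := abs_of_pos hs0
  constructor
  · -- the annulus
    have h1 := hcf.annulus (s := s) (w := w) (P := q / 4) (P' := q / 2) hvs hκ hw (by positivity)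
      (by linarith) (by rw [hsabs]; nlinarith)
    have h2 : fl R e x W (tent s (2 * w)) (q / 2) ≤ A k := by
      rw [hA]
      simp only
      rw [← hq]
      exact comp _ _ bs2 bk _ _ (by positivity) (by linarith) le_rfl
    have h3 : A (k + 1) ≤ fl R e x W (tent s (2 * w)) (q / 4) := by
      rw [hA]
      simp only
      refine comp _ _ bk1 bs2 _ _ (hr0 _).le ?_ (by linarith)
      rw [hrs, ← hq]
      linarith
    have h4 : A 0 / N ≤ τ / (4 * a) := by
      rw [div_le_div_iff₀ (by linarith) (by positivity)]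
      have h5 : 16 * a * (K + 8) / (σ * τ) ≤ N := by linarith
      rw [div_le_iff₀ (by positivity)] at h5
      have h6 : A 0 * (4 * a) ≤ 4 / σ * (K + 8) * (4 * a) := by gcongr
      have h7 : 4 / σ * (K + 8) * (4 * a) ≤ τ * N := by
        rw [show 4 / σ * (K + 8) * (4 * a) = 16 * a * (K + 8) / σ by ring, div_le_iff₀ hσ0]
        linarith
      linarith
    rw [← hadef] at h1
    calc ∫ y in Disc e x s w (q / 2) \ Disc e x s w (q / 4), om v y
        ≤ 4 * a * w * (fl R e x W (tent s (2 * w)) (q / 2)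
          - fl R e x W (tent s (2 * w)) (q / 4)) := h1
      _ ≤ 4 * a * w * (τ / (4 * a)) := by
          gcongr
          linarith
      _ = τ * w := by field_simp
  · -- the disc
    have h1 := hcf.disc_flux (s := s) (w := w) (P := q / 4) hvs hw (by positivity)
      (by rw [hsabs]; nlinarith)
    have h2 : κ * η / 8 ≤ fl R e x W (tent s w) (q / 4) := by
      have h3 := hcf.conc_flux hvs hκ hρ hρR
      have h4 : fl R e x W (tent 0 (4 * ρ)) (2 * ρ) ≤ fl R e x W (tent s w) (q / 4) :=
        comp _ _ bρ bs1 _ _ (by positivity) (by linarith) (by linarith)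
      calc κ * η / 8 = κ / (8 * ρ) * (η * ρ) := by field_simp
        _ ≤ κ / (8 * ρ) * ∫ y in closedBall x ρ, om v y := by gcongr
        _ ≤ _ := h3.trans h4
    calc κ / 8 * η * w = w * (κ * η / 8) := by ring
      _ ≤ w * fl R e x W (tent s w) (q / 4) := by gcongr
      _ ≤ _ := h1

theorem morD : StmMorD := by
  intro κ hκ hκ1
  obtain ⟨a, hadef⟩ : ∃ a, a = 1 / κ := ⟨_, rfl⟩
  obtain ⟨σ, hσ⟩ : ∃ σ, σ = κ / 240 := ⟨_, rfl⟩
  have hσ0 : 0 < σ := by rw [hσ]; positivity
  have hσ1 : σ ≤ 1 / 240 := by rw [hσ]; linarith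
  have ha : 0 < a := by rw [hadef]; positivity
  have haσ : a * σ = 1 / 240 := by rw [hadef, hσ]; field_simp
  refine ⟨32 / (κ * σ), σ / 16, by positivity, by positivity, by linarith, ?_⟩
  intro v x e R hv hR hR1 hcone ρ hρ hρR'
  have hvs : ∀ i, ContDiff ℝ ∞ fun y => v y i := fun i => (hv.1 i).smooth
  have hcf := uf_cf hvs hκ hR.le hcone
  obtain ⟨W, hWdef⟩ : ∃ W, W = uf e x R v := ⟨_, rfl⟩
  rw [← hWdef] at hcf
  have he := hcf.unit
  have hdf := hcf.wd
  have hcp : CP a R e x W := by rw [hadef]; exact hcf.cp hκ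
  obtain ⟨q, hq⟩ : ∃ q, q = R / 4 := ⟨_, rfl⟩
  have hq0 : 0 < q := by rw [hq]; positivity
  have hσq : 0 < σ * q := mul_pos hσ0 hq0
  have hρq : 4 * ρ ≤ σ * q := by
    rw [hq]
    linarith
  obtain ⟨S, hS⟩ : ∃ S, S = 3 * (σ * q) := ⟨_, rfl⟩
  have hS0 : 0 < S := by rw [hS]; positivity
  have h10 : 10 * a * S = q / 8 := by
    rw [hS]
    calc 10 * a * (3 * (σ * q)) = 30 * (a * σ) * q := by ring
      _ = _ := by rw [haσ]; ring
  have hS5 : 5 * S ≤ q / 16 := by
    rw [hS]
    nlinarith
  have hσq2 : σ * q ≤ q / 240 := by nlinarith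
  have bk : Bp (-S) S (tent 0 (σ * q)) := (tent_bp hσq).mono (by linarith) (by linarith)
  have bρ : Bp (-S) S (tent 0 (4 * ρ)) := (tent_bp (by positivity)).mono (by linarith) (by linarith)
  have h3 := compare he ha hcp hdf hS0 (P := 2 * ρ) (by positivity) bρ bk
    (by rw [h10]; linarith)
  rw [h10] at h3
  have h4 := h3.trans (fl_mono ha hcp hdf.cont bk.cont bk.nn (by positivity)
    (show 2 * ρ + q / 8 ≤ q by linarith))
  have h5 := hcf.conc_flux hvs hκ hρ (by linarith)
  have h6 := fl_up (x := x) (Q := R) (R := R) ha hcp hdf.cont hσq he hq0.le (by linarith) le_rfl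
  have h7 : ∫ y in closedBall x R, e ⬝ᵥ W y ≤ ∫ y in closedBall x R, om v y := by
    refine setIntegral_mono_on (int_cont (continuous_const.dotProduct hdf.cont) x R)
      (int_cont (om_cont hvs) x R) isClosed_closedBall.measurableSet
      fun y hy => ?_
    exact hcf.up y hy e (by rw [he])
  have h8 : κ / (8 * ρ) * (∫ y in closedBall x ρ, om v y)
      ≤ 1 / (σ * q) * ∫ y in closedBall x R, om v y := by
    refine (h5.trans (h4.trans h6)).trans ?_
    gcongr
  calc ∫ y in closedBall x ρ, om v y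
      = (8 * ρ / κ) * (κ / (8 * ρ) * (∫ y in closedBall x ρ, om v y)) := by field_simp
    _ ≤ (8 * ρ / κ) * (1 / (σ * q) * ∫ y in closedBall x R, om v y) := by gcongr
    _ = 32 / (κ * σ) * (ρ / R) * ∫ y in closedBall x R, om v y := by
      rw [hq]
      field_simp
      ring

end Pool.Agent.Q151.CC
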