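import Pool.Agent.Q151.CC.Tent

/-! Comparison of fluxes of a field in a cone (project CC of helper85, job CC-PINCH). -/

set_option autoImplicit false

open MeasureTheory Set Metric
open scoped ContDiff
open H459R3.NS Pool.Agent.W268.NS Pool.Agent.Q67.VD Pool.Agent.Q85.CC

namespace Pool.Agent.Q151.CC

/-! ### geometry -/

lemma dot3 (a b : V) : a ⬝ᵥ b = a 0 * b 0 + a 1 * b 1 + a 2 * b 2 := by
  simp [dotProduct, Fin.sum_univ_three]

lemma cs (a b : V) : (a ⬝ᵥ b) ^ 2 ≤ (a ⬝ᵥ a) * (b ⬝ᵥ b) := by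
  have h := Finset.sum_mul_sq_le_sq_mul_sq Finset.univ a b
  simp only [dotProduct]
  calc (∑ i, a i * b i) ^ 2 ≤ (∑ i, a i ^ 2) * ∑ i, b i ^ 2 := h
    _ = _ := by
      simp only [pow_two]

/-- the part of `y - x` orthogonal to the axis -/
noncomputable def no (e x y : V) : V := fun i => y i - x i - hgt e x y * e i

lemma no_dot (e x y w : V) : no e x y ⬝ᵥ w = (y - x) ⬝ᵥ w - hgt e x y * (e ⬝ᵥ w) := by
  simp only [dot3, no, Pi.sub_apply]
  ring

lemma no_e {e : V} (he : e ⬝ᵥ e = 1) (x y : V) : e ⬝ᵥ no e x y = 0 := by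
  have h : e ⬝ᵥ no e x y = hgt e x y - hgt e x y * (e ⬝ᵥ e) := by
    simp only [hgt, dot3, no, Pi.sub_apply]
    ring
  rw [h, he]
  ring

lemma no_no {e : V} (he : e ⬝ᵥ e = 1) (x y : V) : no e x y ⬝ᵥ no e x y = pr2 e x y := by
  have h : no e x y ⬝ᵥ no e x y
      = (y - x) ⬝ᵥ (y - x) - 2 * hgt e x y * hgt e x y + hgt e x y ^ 2 * (e ⬝ᵥ e) := by
    simp only [hgt, dot3, no, Pi.sub_apply]
    ring
  rw [h, he]
  unfold pr2
  ring

lemma dot_nn (a : V) : 0 ≤ a ⬝ᵥ a := by
  rw [dot3]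
  nlinarith [sq_nonneg (a 0), sq_nonneg (a 1), sq_nonneg (a 2)]

lemma coord_sq (a : V) (i : Fin 3) : a i ^ 2 ≤ a ⬝ᵥ a := by
  have h : a i ^ 2 ≤ ∑ j, a j ^ 2 :=
    Finset.single_le_sum (f := fun j => a j ^ 2) (fun j _ => sq_nonneg _) (Finset.mem_univ i)
  simp only [dotProduct]
  simp only [pow_two] at h ⊢
  exact h

lemma pr2_nonneg {e : V} (he : e ⬝ᵥ e = 1) (x y : V) : 0 ≤ pr2 e x y := by
  rw [← no_no he]
  exact dot_nn _

lemma mem_ball {e x y : V} (he : e ⬝ᵥ e = 1) {α P R : ℝ} (h1 : |hgt e x y| ≤ α)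
    (h2 : pr2 e x y ≤ P ^ 2) (hP : 0 ≤ P) (h3 : α + P ≤ R) : y ∈ closedBall x R := by
  have hα : 0 ≤ α := (abs_nonneg _).trans h1
  rw [mem_closedBall, dist_pi_le_iff (by linarith)]
  intro i
  rw [Real.dist_eq]
  have e1 : y i - x i = hgt e x y * e i + no e x y i := by
    unfold no
    ring
  have h4 : |e i| ≤ 1 := by
    have := coord_sq e i
    rw [he] at this
    exact abs_le_of_sq_le_sq (by rw [one_pow]; exact this) zero_le_one
  have h5 : |no e x y i| ≤ P := by
    have := coord_sq (no e x y) i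
    rw [no_no he] at this
    exact abs_le_of_sq_le_sq (this.trans h2) hP
  rw [e1]
  calc |hgt e x y * e i + no e x y i| ≤ |hgt e x y * e i| + |no e x y i| := abs_add_le _ _
    _ = |hgt e x y| * |e i| + |no e x y i| := by rw [abs_mul]
    _ ≤ α * 1 + P := by gcongr
    _ ≤ R := by linarith

lemma hgt_le_of_ball {e x y : V} (he : e ⬝ᵥ e = 1) {s : ℝ} (hs : 0 ≤ s) (h : y ∈ closedBall x s) :
    |hgt e x y| ≤ 2 * s ∧ pr2 e x y ≤ (2 * s) ^ 2 := by
  rw [mem_closedBall, dist_pi_le_iff hs] at h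
  have h1 : (y - x) ⬝ᵥ (y - x) ≤ (2 * s) ^ 2 := by
    rw [dot3]
    have h2 : ∀ i, (y - x) i * (y - x) i ≤ s ^ 2 := by
      intro i
      have := h i
      rw [Real.dist_eq] at this
      have h3 := abs_le.1 this
      simp only [Pi.sub_apply]
      nlinarith
    nlinarith [h2 0, h2 1, h2 2]
  have h4 : hgt e x y ^ 2 ≤ (2 * s) ^ 2 := by
    have := cs e (y - x)
    rw [he, one_mul] at this
    exact this.trans h1
  refine ⟨abs_le_of_sq_le_sq h4 (by linarith), ?_⟩
  unfold pr2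
  nlinarith [sq_nonneg (hgt e x y)]

/-! ### the smooth distance of the axis -/

/-- the smooth distance of the axis -/
noncomputable def nd (e x : V) (d : ℝ) (y : V) : ℝ := √(pr2 e x y + d ^ 2)

lemma hgt_smooth (e x : V) : ContDiff ℝ ∞ (hgt e x) := by
  have : hgt e x = fun y : V => e 0 * (y 0 - x 0) + e 1 * (y 1 - x 1) + e 2 * (y 2 - x 2) := by
    funext y
    simp only [hgt, dot3, Pi.sub_apply]
  rw [this]
  fun_prop

lemma pr2_smooth (e x : V) : ContDiff ℝ ∞ (pr2 e x) := by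
  have : pr2 e x = fun y : V => (y 0 - x 0) * (y 0 - x 0) + (y 1 - x 1) * (y 1 - x 1)
      + (y 2 - x 2) * (y 2 - x 2) - hgt e x y ^ 2 := by
    funext y
    simp only [pr2, dot3, Pi.sub_apply]
  rw [this]
  have := hgt_smooth e x
  fun_prop

lemma nd_smooth {e : V} (he : e ⬝ᵥ e = 1) (x : V) {d : ℝ} (hd : 0 < d) :
    ContDiff ℝ ∞ (nd e x d) := by
  unfold nd
  refine ContDiff.sqrt ?_ fun y => ?_
  · exact (pr2_smooth e x).add contDiff_const
  · have := pr2_nonneg he x y
    positivity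

lemma nd_pos {e : V} (he : e ⬝ᵥ e = 1) (x : V) {d : ℝ} (hd : 0 < d) (y : V) : 0 < nd e x d y := by
  unfold nd
  have := pr2_nonneg he x y
  positivity

lemma nd_sq {e : V} (he : e ⬝ᵥ e = 1) (x : V) {d : ℝ} (hd : 0 < d) (y : V) :
    nd e x d y ^ 2 = pr2 e x y + d ^ 2 := by
  unfold nd
  have := pr2_nonneg he x y
  exact Real.sq_sqrt (by positivity)

lemma hgt_line (e x y w : V) : HasDerivAt (fun t : ℝ => hgt e x (y + t • w)) (e ⬝ᵥ w) 0 := by
  have h : (fun t : ℝ => hgt e x (y + t • w)) = fun t => hgt e x y + t * (e ⬝ᵥ w) := by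
    funext t
    simp only [hgt, dot3, Pi.sub_apply, Pi.add_apply, Pi.smul_apply, smul_eq_mul]
    ring
  rw [h]
  simpa using ((hasDerivAt_id (0 : ℝ)).mul_const (e ⬝ᵥ w)).const_add (hgt e x y)

lemma pr2_line (e x y w : V) :
    HasDerivAt (fun t : ℝ => pr2 e x (y + t • w)) (2 * (no e x y ⬝ᵥ w)) 0 := by
  have h : (fun t : ℝ => pr2 e x (y + t • w)) = fun t => pr2 e x y
      + t * (2 * (no e x y ⬝ᵥ w)) + t ^ 2 * (w ⬝ᵥ w - (e ⬝ᵥ w) ^ 2) := by
    funext t
    rw [no_dot]
    simp only [pr2, hgt, dot3, Pi.sub_apply, Pi.add_apply, Pi.smul_apply, smul_eq_mul]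
    ring
  rw [h]
  have h1 := ((hasDerivAt_id (0 : ℝ)).mul_const (2 * (no e x y ⬝ᵥ w))).const_add (pr2 e x y)
  have h2 := ((hasDerivAt_id (0 : ℝ)).fun_pow 2).mul_const (w ⬝ᵥ w - (e ⬝ᵥ w) ^ 2)
  refine (h1.fun_add h2).congr_deriv ?_
  simp

lemma nd_line {e : V} (he : e ⬝ᵥ e = 1) (x : V) {d : ℝ} (hd : 0 < d) (y w : V) :
    HasDerivAt (fun t : ℝ => nd e x d (y + t • w)) ((no e x y ⬝ᵥ w) / nd e x d y) 0 := by
  have h1 := (pr2_line e x y w).add_const (d ^ 2)
  have h0 : pr2 e x (y + (0 : ℝ) • w) + d ^ 2 ≠ 0 := by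
    have := pr2_nonneg he x (y + (0 : ℝ) • w)
    positivity
  have h2 := h1.sqrt h0
  refine h2.congr_deriv ?_
  rw [zero_smul, add_zero]
  unfold nd
  have := pr2_nonneg he x y
  have h3 : √(pr2 e x y + d ^ 2) ≠ 0 := by positivity
  field_simp

/-! ### the identity of the divergence -/

lemma ibp1 {F g : V → ℝ} (hF : ContDiff ℝ 1 F) (hc : HasCompactSupport F)
    (hg : ContDiff ℝ 1 g) (j : Fin 3) :
    ∫ x, F x * pd j g x = -∫ x, pd j F x * g x := by
  unfold pd
  have c1 : Continuous (fun x => fderiv ℝ F x (Pi.single j 1)) :=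
    (hF.continuous_fderiv one_ne_zero).clm_apply continuous_const
  have c2 : Continuous (fun x => fderiv ℝ g x (Pi.single j 1)) :=
    (hg.continuous_fderiv one_ne_zero).clm_apply continuous_const
  refine integral_mul_fderiv_eq_neg_fderiv_mul_of_integrable ?_ ?_ ?_ ?_ ?_
  · refine (c1.mul hg.continuous).integrable_of_hasCompactSupport ?_
    exact HasCompactSupport.mul_right (hc.fderiv_apply (𝕜 := ℝ) _)
  · exact (hF.continuous.mul c2).integrable_of_hasCompactSupport hc.mul_right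
  · exact (hF.continuous.mul hg.continuous).integrable_of_hasCompactSupport hc.mul_right
  · exact fun x _ => hF.differentiable one_ne_zero x
  · exact fun x _ => hg.differentiable one_ne_zero x

lemma fderiv_sum (F : V → ℝ) (y w : V) : fderiv ℝ F y w = ∑ j, pd j F y * w j := by
  have h : w = ∑ j, w j • (Pi.single j 1 : V) := by
    funext i
    simp [Finset.sum_apply, Pi.single_apply]
  conv_lhs => rw [h]
  rw [map_sum]
  refine Finset.sum_congr rfl fun j _ => ?_
  rw [map_smul, smul_eq_mul, mul_comm]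
  rfl

/-- a continuously differentiable field without divergence -/
structure DF (W : V → V) : Prop where
  smooth : ∀ i, ContDiff ℝ 1 (fun y => W y i)
  div : ∀ y, ∑ i, pd i (fun z => W z i) y = 0

lemma DF.cont {W : V → V} (hW : DF W) : Continuous W :=
  continuous_pi fun i => (hW.smooth i).continuous

lemma div_int {W : V → V} (hW : DF W) {F : V → ℝ} (hF : ContDiff ℝ 1 F)
    (hc : HasCompactSupport F) : ∫ y, fderiv ℝ F y (W y) = 0 := by
  have h1 : ∀ j, Integrable fun y => pd j F y * W y j := by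
    intro j
    unfold pd
    have c1 : Continuous (fun x => fderiv ℝ F x (Pi.single j 1)) :=
      (hF.continuous_fderiv one_ne_zero).clm_apply continuous_const
    refine (c1.mul (hW.smooth j).continuous).integrable_of_hasCompactSupport ?_
    exact HasCompactSupport.mul_right (hc.fderiv_apply (𝕜 := ℝ) _)
  have h2 : ∀ j, Integrable fun y => F y * pd j (fun z => W z j) y := by
    intro j
    unfold pd
    have c1 : Continuous (fun x => fderiv ℝ (fun z => W z j) x (Pi.single j 1)) :=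
      ((hW.smooth j).continuous_fderiv one_ne_zero).clm_apply continuous_const
    exact (hF.continuous.mul c1).integrable_of_hasCompactSupport hc.mul_right
  simp_rw [fderiv_sum]
  rw [integral_finsetSum _ fun j _ => h1 j]
  have h3 : ∀ j, ∫ y, pd j F y * W y j = -∫ y, F y * pd j (fun z => W z j) y := by
    intro j
    rw [ibp1 hF hc (hW.smooth j) j, neg_neg]
  simp_rw [h3]
  rw [Finset.sum_neg_distrib, ← integral_finsetSum _ fun j _ => h2 j]
  simp_rw [← Finset.mul_sum, hW.div]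
  simp

/-- a continuous field which is weakly free of divergence in the ball -/
structure WD (R : ℝ) (x : V) (W : V → V) : Prop where
  cont : Continuous W
  div : ∀ F : V → ℝ, ContDiff ℝ 1 F → tsupport F ⊆ closedBall x R →
    ∫ y in closedBall x R, fderiv ℝ F y (W y) = 0

lemma DF.wd {W : V → V} (hW : DF W) (R : ℝ) (x : V) : WD R x W := by
  refine ⟨hW.cont, fun F hF hts => ?_⟩
  have hcs : HasCompactSupport F :=
    (isCompact_closedBall x R).of_isClosed_subset (isClosed_tsupport F) hts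
  rw [setIntegral_eq_integral_of_forall_compl_eq_zero, div_int hW hF hcs]
  intro y hy
  have h1 : fderiv ℝ F y = 0 := by
    by_contra hc
    exact hy (hts (support_fderiv_subset ℝ hc))
  rw [h1]
  rfl

/-- the cone condition on the cube -/
def CP (a R : ℝ) (e x : V) (W : V → V) : Prop :=
  ∀ y ∈ closedBall x R, ∀ n : V, e ⬝ᵥ n = 0 → n ⬝ᵥ n ≤ 1 → n ⬝ᵥ W y ≤ a * (e ⬝ᵥ W y)

/-- the flux through the cylinder -/
noncomputable def fl (R : ℝ) (e x : V) (W : V → V) (η : ℝ → ℝ) (P : ℝ) : ℝ :=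
  ∫ y in closedBall x R, {y | pr2 e x y ≤ P ^ 2}.indicator (fun y => η (hgt e x y) * (e ⬝ᵥ W y)) y

end Pool.Agent.Q151.CC
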