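import Pool.Agent.Q151.CC.Step

/-! Concentration of the flux (project CC of helper85, job CC-PINCH). -/

set_option autoImplicit false

open MeasureTheory Set Metric
open scoped ContDiff
open H459R3.NS Pool.Agent.W268.NS Pool.Agent.Q67.VD Pool.Agent.Q85.CC

namespace Pool.Agent.Q151.CC

/-! ### the vorticity has no divergence -/

lemma pd_smooth {f : V → ℝ} (hf : ContDiff ℝ ∞ f) (i : Fin 3) : ContDiff ℝ ∞ (pd i f) := by
  unfold pd
  exact (hf.fderiv_right (m := ∞) (by norm_cast)).clm_apply contDiff_const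

lemma pd_comm' {f : V → ℝ} (hf : ContDiff ℝ ∞ f) (i j : Fin 3) (x : V) :
    pd i (pd j f) x = pd j (pd i f) x := by
  have h2 : ContDiff ℝ 2 f := hf.of_le (by norm_cast)
  have hs : IsSymmSndFDerivAt ℝ f x := h2.contDiffAt.isSymmSndFDerivAt (by simp)
  have hd : DifferentiableAt ℝ (fderiv ℝ f) x :=
    ((h2.fderiv_right (m := 1) (by norm_num)).differentiable one_ne_zero) x
  have e : ∀ a b : Fin 3, pd a (pd b f) x
      = fderiv ℝ (fderiv ℝ f) x (Pi.single a 1) (Pi.single b 1) := by
    intro a b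
    unfold pd
    have h3 : HasFDerivAt (fun y => fderiv ℝ f y (Pi.single b 1)) _ x :=
      hd.hasFDerivAt.clm_apply (hasFDerivAt_const (Pi.single b (1 : ℝ) : V) x)
    rw [h3.fderiv]
    simp
  rw [e, e]
  exact hs _ _

lemma pd_sub_add {f g : V → ℝ} (hf : ContDiff ℝ ∞ f) (hg : ContDiff ℝ ∞ g) (c : ℝ) (i : Fin 3)
    (x : V) : pd i (fun y => f y - g y + c) x = pd i f x - pd i g x := by
  unfold pd
  have h1 := (hf.differentiable (by norm_cast) x).hasFDerivAt
  have h2 := (hg.differentiable (by norm_cast) x).hasFDerivAt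
  have h : HasFDerivAt (fun y => f y - g y + c) _ x := (h1.fun_sub h2).add_const c
  rw [h.fderiv]
  rfl

/-- the shifted vorticity -/
noncomputable def sw (v : V → V) (M : ℝ) (e : V) (y : V) : V := fun i => vort v y i + M * e i

lemma sw_df {v : V → V} (hv : ∀ i, ContDiff ℝ ∞ fun y => v y i) (M : ℝ) (e : V) :
    DF (sw v M e) := by
  have h0 : (fun y => sw v M e y 0)
      = fun y => pd 1 (fun z => v z 2) y - pd 2 (fun z => v z 1) y + M * e 0 := rfl
  have h1 : (fun y => sw v M e y 1)
      = fun y => pd 2 (fun z => v z 0) y - pd 0 (fun z => v z 2) y + M * e 1 := rfl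
  have h2 : (fun y => sw v M e y 2)
      = fun y => pd 0 (fun z => v z 1) y - pd 1 (fun z => v z 0) y + M * e 2 := rfl
  have hs : ∀ i j c, ContDiff ℝ 1 fun y => pd i (fun z => v z j) y - pd j (fun z => v z i) y + c :=
    fun i j c => (((pd_smooth (hv j) i).sub (pd_smooth (hv i) j)).add contDiff_const).of_le
      (by norm_cast)
  refine ⟨fun i => ?_, fun y => ?_⟩
  · fin_cases i
    · exact hs 1 2 _
    · exact hs 2 0 _
    · exact hs 0 1 _
  · rw [Fin.sum_univ_three, h0, h1, h2, pd_sub_add (pd_smooth (hv 2) 1) (pd_smooth (hv 1) 2),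
      pd_sub_add (pd_smooth (hv 0) 2) (pd_smooth (hv 2) 0),
      pd_sub_add (pd_smooth (hv 1) 0) (pd_smooth (hv 0) 1), pd_comm' (hv 2) 0 1 y,
      pd_comm' (hv 1) 0 2 y, pd_comm' (hv 0) 1 2 y]
    ring

lemma const_df (e : V) : DF (fun _ => e) := by
  refine ⟨fun i => contDiff_const, fun y => ?_⟩
  have : ∀ i : Fin 3, pd i (fun _ : V => e i) y = 0 := by
    intro i
    unfold pd
    simp
  simp [this]

lemma e_sw {e : V} (he : e ⬝ᵥ e = 1) (v : V → V) (M : ℝ) (y : V) :
    e ⬝ᵥ sw v M e y = e ⬝ᵥ vort v y + M := by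
  have : e ⬝ᵥ sw v M e y = e ⬝ᵥ vort v y + M * (e ⬝ᵥ e) := by
    simp only [dot3, sw]
    ring
  rw [this, he, mul_one]

lemma dot_le_om {n : V} (hn : n ⬝ᵥ n ≤ 1) (v : V → V) (y : V) : n ⬝ᵥ vort v y ≤ om v y := by
  unfold om len
  apply Real.le_sqrt_of_sq_le
  have h1 := cs n (vort v y)
  have h2 := dot_nn (vort v y)
  nlinarith

lemma om_nonneg (v : V → V) (y : V) : 0 ≤ om v y := Real.sqrt_nonneg _

lemma vort_cont {v : V → V} (hv : ∀ i, ContDiff ℝ ∞ fun y => v y i) : Continuous (vort v) := by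
  have h := (sw_df hv 0 0).cont
  have e : sw v 0 0 = vort v := by
    funext y i
    simp [sw]
  rwa [e] at h

lemma om_cont {v : V → V} (hv : ∀ i, ContDiff ℝ ∞ fun y => v y i) : Continuous (om v) := by
  unfold om len
  exact ((vort_cont hv).dotProduct (vort_cont hv)).sqrt

section cone

variable {κ M R : ℝ} {e x : V} {v : V → V}

lemma om_le (hκ : 0 < κ) (h : Cone κ M R e x v) {y : V} (hy : y ∈ closedBall x R) :
    om v y ≤ 1 / κ * (e ⬝ᵥ sw v M e y) := by
  have h1 := h.2 y (by rwa [mem_closedBall, dist_eq_norm] at hy)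
  rw [e_sw h.1, one_div, inv_mul_eq_div, le_div_iff₀ hκ]
  linarith

lemma cp_sw (hκ : 0 < κ) (h : Cone κ M R e x v) : CP (1 / κ) R e x (sw v M e) := by
  intro y hy n hn hn1
  have h1 : n ⬝ᵥ sw v M e y = n ⬝ᵥ vort v y := by
    have : n ⬝ᵥ sw v M e y = n ⬝ᵥ vort v y + M * (e ⬝ᵥ n) := by
      simp only [dot3, sw]
      ring
    rw [this, hn, mul_zero, add_zero]
  rw [h1]
  exact (dot_le_om hn1 v y).trans (om_le hκ h hy)

lemma cp_const {a : ℝ} (ha : 0 ≤ a) (he : e ⬝ᵥ e = 1) : CP a R e x (fun _ => e) := by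
  intro y _ n hn _
  rw [dotProduct_comm, hn, he, mul_one]
  exact ha

end cone

lemma vol_ball (x : V) {r : ℝ} (hr : 0 ≤ r) : volume.real (closedBall x r) = (2 * r) ^ 3 := by
  rw [measureReal_def, Real.volume_pi_closedBall x hr, ENNReal.toReal_ofReal (by positivity)]
  simp

lemma disc_meas (e x : V) (s w P : ℝ) : MeasurableSet (Disc e x s w P) := by
  unfold Disc
  refine IsClosed.measurableSet ?_
  have h1 := (hgt_smooth e x).continuous
  have h2 := (pr2_smooth e x).continuous
  exact (isClosed_le (h1.sub continuous_const).abs continuous_const).inter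
    (isClosed_le h2 continuous_const)

/-- the flux through a section which is not too thin -/
lemma fl_up {e x : V} {W : V → V} {a R : ℝ} (ha : 0 < a) (hCP : CP a R e x W) (hW : Continuous W)
    {h P Q : ℝ} (hh : 0 < h) (he : e ⬝ᵥ e = 1) (hP : 0 ≤ P) (hQ : h + P ≤ Q) (hQR : Q ≤ R) :
    fl R e x W (tent 0 h) P ≤ 1 / h * ∫ y in closedBall x Q, e ⬝ᵥ W y := by
  have hc : Continuous fun y => e ⬝ᵥ W y := continuous_const.dotProduct hW
  have hb := tent_bp (s := 0) hh
  rw [← integral_const_mul]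
  have h1 : ∫ y in closedBall x Q, 1 / h * (e ⬝ᵥ W y) = ∫ y in closedBall x R,
      (closedBall x Q).indicator (fun y => 1 / h * (e ⬝ᵥ W y)) y := by
    rw [setIntegral_indicator isClosed_closedBall.measurableSet,
      inter_eq_right.2 (closedBall_subset_closedBall hQR)]
  rw [h1]
  unfold fl
  refine setIntegral_mono_on ((int_cont (fl_cont hW hb.cont) x R).indicator (cyl_meas e x P))
    ((int_cont (hc.const_mul (1 / h)) x R).indicator isClosed_closedBall.measurableSet)
    isClosed_closedBall.measurableSet fun y hy => ?_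
  have h0 := hCP.nonneg ha hy
  by_cases hy2 : pr2 e x y ≤ P ^ 2 ∧ tent 0 h (hgt e x y) ≠ 0
  · have h2 : |hgt e x y| ≤ h := by
      have := tent_supp hh hy2.2
      exact abs_le.2 ⟨by linarith [this.1], by linarith [this.2]⟩
    have h3 := mem_ball he h2 hy2.1 hP hQ
    rw [indicator_of_mem (by exact hy2.1), indicator_of_mem h3]
    exact mul_le_mul_of_nonneg_right (tent_le hh _) h0
  · have h4 : {y | pr2 e x y ≤ P ^ 2}.indicator (fun y => tent 0 h (hgt e x y) * (e ⬝ᵥ W y)) y
        = 0 := by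
      by_cases h5 : pr2 e x y ≤ P ^ 2
      · rw [indicator_of_mem (by exact h5)]
        have h6 : tent 0 h (hgt e x y) = 0 := by
          by_contra hc
          exact hy2 ⟨h5, hc⟩
        rw [h6, zero_mul]
      · exact indicator_of_notMem (by exact h5) _
    rw [h4]
    refine indicator_apply_nonneg fun _ => ?_
    positivity

/-- the annulus -/
lemma annulus {e x : V} {v : V → V} {κ M R : ℝ} (hv : ∀ i, ContDiff ℝ ∞ fun y => v y i)
    (hκ : 0 < κ) (hcone : Cone κ M R e x v) {s w P P' : ℝ} (hw : 0 < w) (hP : 0 ≤ P)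
    (hPP : P ≤ P') (hR : |s| + w + P' ≤ R) :
    ∫ y in Disc e x s w P' \ Disc e x s w P, om v y ≤ 4 * (1 / κ) * w *
      (fl R e x (sw v M e) (tent s (2 * w)) P' - fl R e x (sw v M e) (tent s (2 * w)) P) := by
  have he := hcone.1
  have hW := (sw_df hv M e).cont
  have hb := tent_bp (s := s) (h := 2 * w) (by positivity)
  have hcp := cp_sw hκ hcone
  have ha : 0 < 1 / κ := by positivity
  have hsub : Disc e x s w P' \ Disc e x s w P ⊆ closedBall x R := by
    rintro y ⟨hy, -⟩
    have h1 : |hgt e x y - s| ≤ w := hy.1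
    refine mem_ball he (α := |s| + w) ?_ hy.2 (hP.trans hPP) hR
    calc |hgt e x y| = |s + (hgt e x y - s)| := by ring_nf
      _ ≤ |s| + |hgt e x y - s| := abs_add_le _ _
      _ ≤ _ := by linarith
  have hD : MeasurableSet (Disc e x s w P' \ Disc e x s w P) :=
    (disc_meas e x s w P').diff (disc_meas e x s w P)
  have h1 : ∫ y in Disc e x s w P' \ Disc e x s w P, om v y = ∫ y in closedBall x R,
      (Disc e x s w P' \ Disc e x s w P).indicator (om v) y := by
    rw [setIntegral_indicator hD, inter_eq_right.2 hsub]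
  have hi : ∀ P : ℝ, IntegrableOn ({y | pr2 e x y ≤ P ^ 2}.indicator
      (fun y => tent s (2 * w) (hgt e x y) * (e ⬝ᵥ sw v M e y))) (closedBall x R) := fun P =>
    (int_cont (fl_cont hW hb.cont) x R).indicator (cyl_meas e x P)
  unfold fl
  rw [h1, ← integral_sub (hi P') (hi P), ← integral_const_mul]
  refine setIntegral_mono_on ((int_cont (om_cont hv) x R).indicator hD)
    (((hi P').sub (hi P)).const_mul _) isClosed_closedBall.measurableSet fun y hy => ?_
  have h0 := hcp.nonneg ha hy
  have h3 : 0 ≤ tent s (2 * w) (hgt e x y) * (e ⬝ᵥ sw v M e y) := mul_nonneg (hb.nn _) h0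
  by_cases hyD : y ∈ Disc e x s w P' \ Disc e x s w P
  · rw [indicator_of_mem hyD]
    have h4 : pr2 e x y ≤ P' ^ 2 := hyD.1.2
    have h5 : |hgt e x y - s| ≤ w := hyD.1.1
    have h6 : ¬ pr2 e x y ≤ P ^ 2 := fun h => hyD.2 ⟨h5, h⟩
    rw [indicator_of_mem (by exact h4), indicator_of_notMem (by exact h6), sub_zero]
    have h7 := tent_ge (s := s) (h := 2 * w) (by positivity) (z := hgt e x y) (by linarith)
    calc om v y ≤ 1 / κ * (e ⬝ᵥ sw v M e y) := om_le hκ hcone hy
      _ = 4 * (1 / κ) * w * (1 / (2 * (2 * w)) * (e ⬝ᵥ sw v M e y)) := by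
          field_simp
          ring
      _ ≤ 4 * (1 / κ) * w * (tent s (2 * w) (hgt e x y) * (e ⬝ᵥ sw v M e y)) := by gcongr
  · rw [indicator_of_notMem hyD]
    apply mul_nonneg (by positivity)
    rw [sub_nonneg]
    by_cases h4 : pr2 e x y ≤ P ^ 2
    · have h5 : pr2 e x y ≤ P' ^ 2 := h4.trans (by gcongr)
      rw [indicator_of_mem (by exact h4), indicator_of_mem (by exact h5)]
    · rw [indicator_of_notMem (by exact h4)]
      exact indicator_apply_nonneg fun _ => h3

/-- the flux in a thin disc -/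
lemma disc_flux {e x : V} {v : V → V} {κ M R : ℝ} (hv : ∀ i, ContDiff ℝ ∞ fun y => v y i)
    (hκ : 0 < κ) (hcone : Cone κ M R e x v) {s w P : ℝ} (hw : 0 < w) (hP : 0 ≤ P)
    (hR : |s| + w + P ≤ R) :
    w * (fl R e x (sw v M e) (tent s w) P - M * fl R e x (fun _ => e) (tent s w) P)
      ≤ ∫ y in Disc e x s w P, om v y := by
  have he := hcone.1
  have hW := (sw_df hv M e).cont
  have hb := tent_bp (s := s) hw
  have hsub : Disc e x s w P ⊆ closedBall x R := by
    rintro y hy
    have h1 : |hgt e x y - s| ≤ w := hy.1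
    refine mem_ball he (α := |s| + w) ?_ hy.2 hP hR
    calc |hgt e x y| = |s + (hgt e x y - s)| := by ring_nf
      _ ≤ |s| + |hgt e x y - s| := abs_add_le _ _
      _ ≤ _ := by linarith
  have hD := disc_meas e x s w P
  have h1 : ∫ y in Disc e x s w P, om v y = ∫ y in closedBall x R,
      (Disc e x s w P).indicator (om v) y := by
    rw [setIntegral_indicator hD, inter_eq_right.2 hsub]
  have hi : ∀ W : V → V, Continuous W → IntegrableOn ({y | pr2 e x y ≤ P ^ 2}.indicator
      (fun y => tent s w (hgt e x y) * (e ⬝ᵥ W y))) (closedBall x R) := fun W hW =>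
    (int_cont (fl_cont hW hb.cont) x R).indicator (cyl_meas e x P)
  have i1 := hi _ hW
  have i2 := hi (fun _ => e) continuous_const
  unfold fl
  rw [h1, ← integral_const_mul M, ← integral_sub i1 (i2.const_mul M), ← integral_const_mul w]
  refine setIntegral_mono_on ((i1.sub (i2.const_mul M)).const_mul w)
    ((int_cont (om_cont hv) x R).indicator hD) isClosed_closedBall.measurableSet fun y hy => ?_
  have h0 := om_nonneg v y
  by_cases h2 : pr2 e x y ≤ P ^ 2
  · rw [indicator_of_mem (by exact h2), indicator_of_mem (by exact h2), e_sw he, he]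
    by_cases h3 : tent s w (hgt e x y) = 0
    · rw [h3]
      simp only [zero_mul, mul_zero, sub_zero]
      exact indicator_apply_nonneg fun _ => h0
    · have h4 := tent_supp hw h3
      have h5 : y ∈ Disc e x s w P := ⟨abs_le.2 ⟨by linarith [h4.1], by linarith [h4.2]⟩, h2⟩
      rw [indicator_of_mem h5]
      have h6 : w * (tent s w (hgt e x y) * (e ⬝ᵥ vort v y + M) - M * (tent s w (hgt e x y) * 1))
          = (w * tent s w (hgt e x y)) * (e ⬝ᵥ vort v y) := by ring
      rw [h6]
      have h7 : w * tent s w (hgt e x y) ≤ 1 := by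
        calc w * tent s w (hgt e x y) ≤ w * (1 / w) := by
              gcongr
              exact tent_le hw _
          _ = 1 := by field_simp
      have h8 : 0 ≤ w * tent s w (hgt e x y) := mul_nonneg hw.le (hb.nn _)
      have h9 := dot_le_om (n := e) (by rw [he]) v y
      calc (w * tent s w (hgt e x y)) * (e ⬝ᵥ vort v y)
          ≤ (w * tent s w (hgt e x y)) * om v y := by gcongr
        _ ≤ 1 * om v y := by gcongr
        _ = _ := one_mul _
  · rw [indicator_of_notMem (by exact h2), indicator_of_notMem (by exact h2)]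
    simp only [mul_zero, sub_zero]
    exact indicator_apply_nonneg fun _ => h0

/-- the concentration gives a flux -/
lemma conc_flux {e x : V} {v : V → V} {κ M R : ℝ} (hv : ∀ i, ContDiff ℝ ∞ fun y => v y i)
    (hκ : 0 < κ) (hcone : Cone κ M R e x v) {ρ : ℝ} (hρ : 0 < ρ) (hρR : ρ ≤ R) :
    κ / (8 * ρ) * (∫ y in closedBall x ρ, om v y)
      ≤ fl R e x (sw v M e) (tent 0 (4 * ρ)) (2 * ρ) := by
  have he := hcone.1
  have hW := (sw_df hv M e).cont
  have hb := tent_bp (s := 0) (h := 4 * ρ) (by positivity)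
  have hcp := cp_sw hκ hcone
  have h1 : ∫ y in closedBall x ρ, om v y = ∫ y in closedBall x R,
      (closedBall x ρ).indicator (om v) y := by
    rw [setIntegral_indicator isClosed_closedBall.measurableSet,
      inter_eq_right.2 (closedBall_subset_closedBall hρR)]
  rw [h1, ← integral_const_mul]
  unfold fl
  refine setIntegral_mono_on
    (((int_cont (om_cont hv) x R).indicator isClosed_closedBall.measurableSet).const_mul _)
    ((int_cont (fl_cont hW hb.cont) x R).indicator (cyl_meas e x (2 * ρ)))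
    isClosed_closedBall.measurableSet fun y hy => ?_
  have h0 : 0 ≤ e ⬝ᵥ sw v M e y := hcp.nonneg (by positivity) hy
  by_cases h2 : y ∈ closedBall x ρ
  · have h3 := hgt_le_of_ball he hρ.le h2
    rw [indicator_of_mem h2, indicator_of_mem (by exact h3.2)]
    have h4 := tent_ge (s := 0) (h := 4 * ρ) (by positivity) (z := hgt e x y)
      (by rw [sub_zero]; linarith [h3.1])
    calc κ / (8 * ρ) * om v y ≤ κ / (8 * ρ) * (1 / κ * (e ⬝ᵥ sw v M e y)) := by
          gcongr
          exact om_le hκ hcone hy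
      _ = 1 / (2 * (4 * ρ)) * (e ⬝ᵥ sw v M e y) := by
          field_simp
          ring
      _ ≤ _ := by gcongr
  · rw [indicator_of_notMem h2, mul_zero]
    exact indicator_apply_nonneg fun _ => mul_nonneg (hb.nn _) h0

lemma fl_nonneg {e x : V} {W : V → V} {a R : ℝ} (ha : 0 < a) (hCP : CP a R e x W) {η : ℝ → ℝ}
    (hn : ∀ z, 0 ≤ η z) (P : ℝ) : 0 ≤ fl R e x W η P := by
  unfold fl
  refine setIntegral_nonneg isClosed_closedBall.measurableSet fun y hy => ?_
  exact indicator_apply_nonneg fun _ => mul_nonneg (hn _) (hCP.nonneg ha hy)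

theorem pinch : StmPinch := by
  intro κ hκ hκ1
  obtain ⟨σ, hσ⟩ : ∃ σ, σ = κ / 240 := ⟨_, rfl⟩
  obtain ⟨lam, hlam⟩ : ∃ lam, lam = σ / 64 := ⟨_, rfl⟩
  obtain ⟨a, hadef⟩ : ∃ a, a = 1 / κ := ⟨_, rfl⟩
  have hσ0 : 0 < σ := by rw [hσ]; positivity
  have hlam0 : 0 < lam := by rw [hlam]; positivity
  have hσ1 : σ ≤ 1 / 240 := by rw [hσ]; linarith
  have hlam1 : lam ≤ 1 / 64 := by rw [hlam]; linarith
  have ha : 0 < a := by rw [hadef]; positivity
  have haσ : a * σ = 1 / 240 := by rw [hadef, hσ]; field_simp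
  have haκ : a * κ = 1 := by rw [hadef]; field_simp
  refine ⟨σ, lam, σ * κ / 64, hσ0, by linarith, hlam0, by linarith, by positivity, by nlinarith, ?_⟩
  intro K η τ hK hη hη1 hτ hτ1
  obtain ⟨N, hN⟩ := exists_nat_ge (16 * a * (K + 8) / (σ * τ) + 1)
  refine ⟨N, ?_⟩
  intro v x e M R ρ hv hM hR hR1 hcone hom hMR hρ hρN hconc
  have hvs : ∀ i, ContDiff ℝ ∞ fun y => v y i := fun i => (hv.1 i).smooth
  have he := hcone.1
  have hdf := sw_df hvs M e
  have hcp : CP a R e x (sw v M e) := by rw [hadef]; exact cp_sw hκ hcone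
  have hcpe : CP a R e x (fun _ => e) := cp_const ha.le he
  have hN1 : (1 : ℝ) ≤ N := by
    have : 0 ≤ 16 * a * (K + 8) / (σ * τ) := by positivity
    linarith
  -- the bound for `M`
  have hM1 : M * R ^ 2 ≤ σ * κ / 64 * η := by
    calc M * R ^ 2 ≤ σ * κ / 64 * η * τ := hMR
      _ ≤ σ * κ / 64 * η * 1 := by gcongr
      _ = _ := mul_one _
  have hM2 : M * R ^ 2 ≤ 1 := by
    have : σ * κ / 64 * η ≤ 1 := by
      have h1 : σ * κ ≤ 1 := by nlinarith
      nlinarith
    linarith
  -- the fluxes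
  obtain ⟨r, hr⟩ : ∃ r : ℕ → ℝ, r = fun k => lam ^ k * (R / 4) := ⟨_, rfl⟩
  obtain ⟨A, hA⟩ : ∃ A : ℕ → ℝ, A = fun k => fl R e x (sw v M e) (tent 0 (σ * r k)) (r k) := ⟨_, rfl⟩
  have hr0 : ∀ k, 0 < r k := fun k => by rw [hr]; positivity
  have hrR : ∀ k, r k ≤ R / 4 := by
    intro k
    rw [hr]
    have : lam ^ k ≤ 1 := pow_le_one₀ hlam0.le (by linarith)
    simp only
    nlinarith
  have hrs : ∀ k, r (k + 1) = lam * r k := by
    intro k
    rw [hr]
    simp only [pow_succ]
    ring
  have hA0 : A 0 ≤ 4 / σ * (K + 8) := by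
    have h1 : A 0 ≤ 1 / (σ * r 0) * ∫ y in closedBall x R, e ⬝ᵥ sw v M e y := by
      rw [hA]
      refine fl_up ha hcp hdf.cont (mul_pos hσ0 (hr0 0)) he (hr0 0).le ?_ le_rfl
      have := hrR 0
      nlinarith [hr0 0]
    have h2 : ∫ y in closedBall x R, e ⬝ᵥ sw v M e y ≤ K * R + M * (2 * R) ^ 3 := by
      have h3 : ∫ y in closedBall x R, (om v y + M) = (∫ y in closedBall x R, om v y)
          + M * (2 * R) ^ 3 := by
        rw [integral_add (int_cont (om_cont hvs) x R) (int_cont continuous_const x R),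
          setIntegral_const, vol_ball x hR.le, smul_eq_mul]
        ring
      have h4 : ∫ y in closedBall x R, e ⬝ᵥ sw v M e y ≤ ∫ y in closedBall x R, (om v y + M) := by
        refine setIntegral_mono_on (int_cont (continuous_const.dotProduct hdf.cont) x R)
          (int_cont ((om_cont hvs).add continuous_const) x R) isClosed_closedBall.measurableSet
          fun y _ => ?_
        rw [e_sw he]
        linarith [dot_le_om (n := e) (by rw [he]) v y]
      rw [h3] at h4
      linarith [hom R hR le_rfl]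
    have h5 : r 0 = R / 4 := by rw [hr]; simp
    calc A 0 ≤ 1 / (σ * r 0) * (K * R + M * (2 * R) ^ 3) := by
          refine h1.trans ?_
          have := hr0 0
          gcongr
      _ = 4 / σ * (K + 8 * (M * R ^ 2)) := by
          rw [h5]
          field_simp
          ring
      _ ≤ 4 / σ * (K + 8) := by
          gcongr
          linarith
  have hAn : ∀ k, 0 ≤ A k := by
    intro k
    rw [hA]
    exact fl_nonneg ha hcp (tent_bp (mul_pos hσ0 (hr0 k))).nn _
  obtain ⟨k, hkN, hk⟩ : ∃ k < N, A k - A (k + 1) ≤ A 0 / N := by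
    by_contra hc
    push Not at hc
    have h1 : ∑ k ∈ Finset.range N, (A k - A (k + 1)) = A 0 - A N := Finset.sum_range_sub' A N
    have hN0 : 0 < N := by
      by_contra h
      have : N = 0 := by omega
      rw [this] at hN1
      norm_num at hN1
    have h2 : ∑ k ∈ Finset.range N, A 0 / (N : ℝ) < ∑ k ∈ Finset.range N, (A k - A (k + 1)) :=
      Finset.sum_lt_sum_of_nonempty ⟨0, Finset.mem_range.2 hN0⟩ fun k hk =>
        hc k (Finset.mem_range.1 hk)
    rw [h1, Finset.sum_const, Finset.card_range, nsmul_eq_mul] at h2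
    have h3 : (N : ℝ) * (A 0 / N) = A 0 := by field_simp
    rw [h3] at h2
    linarith [hAn N]
  refine ⟨k, hkN, ?_⟩
  intro s w hs1 hs2 hw hw1
  have ek : lam ^ k * (R / 4) = r k := by rw [hr]
  rw [ek] at hs1 hs2 hw1 ⊢
  obtain ⟨q, hq⟩ : ∃ q, q = r k := ⟨_, rfl⟩
  rw [← hq] at hs1 hs2 hw1 ⊢
  have hq0 : 0 < q := by rw [hq]; exact hr0 k
  have hqR : q ≤ R / 4 := by rw [hq]; exact hrR k
  have hσq : 0 < σ * q := mul_pos hσ0 hq0
  have hs0 : 0 < s := hσq.trans_le hs1
  obtain ⟨S, hS⟩ : ∃ S, S = 3 * (σ * q) := ⟨_, rfl⟩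
  have hS0 : 0 < S := by rw [hS]; positivity
  have h10 : 10 * a * S = q / 8 := by
    rw [hS]
    calc 10 * a * (3 * (σ * q)) = 30 * (a * σ) * q := by ring
      _ = _ := by rw [haσ]; ring
  have hS5 : 5 * S ≤ q / 16 := by
    rw [hS]
    nlinarith
  -- the comparison
  have comp : ∀ W : V → V, WD R x W → CP a R e x W → ∀ η₁ η₂ : ℝ → ℝ, Bp (-S) S η₁ → Bp (-S) S η₂ →
      ∀ P P' : ℝ, 0 ≤ P → P + q / 8 ≤ P' → P' ≤ q → fl R e x W η₁ P ≤ fl R e x W η₂ P' := by
    intro W hW hcpW η₁ η₂ h1 h2 P P' hP hPP hP'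
    have h3 := compare he ha hcpW hW hS0 hP h1 h2 (by rw [h10]; linarith)
    rw [h10] at h3
    exact h3.trans (fl_mono ha hcpW hW.cont h2.cont h2.nn (by linarith) hPP)
  have bk : Bp (-S) S (tent 0 (σ * q)) := (tent_bp hσq).mono (by linarith) (by linarith)
  have bk1 : Bp (-S) S (tent 0 (σ * r (k + 1))) := by
    have h1 : r (k + 1) ≤ q := by
      rw [hrs, ← hq]
      nlinarith
    have h2 : σ * r (k + 1) ≤ σ * q := by gcongr
    exact (tent_bp (mul_pos hσ0 (hr0 _))).mono (by linarith) (by linarith)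
  have bs2 : Bp (-S) S (tent s (2 * w)) := (tent_bp (by positivity)).mono (by linarith) (by linarith)
  have bs1 : Bp (-S) S (tent s w) := (tent_bp hw).mono (by linarith) (by linarith)
  have hρq : ρ ≤ 4 * (lam * q) := by
    have h1 : lam ^ N ≤ lam ^ (k + 1) := pow_le_pow_of_le_one hlam0.le (by linarith) hkN
    calc ρ ≤ lam ^ N * R := hρN
      _ ≤ lam ^ (k + 1) * R := by gcongr
      _ = 4 * (lam * q) := by
        rw [hq, hr]
        simp only [pow_succ]
        ring
  have hlq : lam * q ≤ q / 64 := by nlinarith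
  have hlq2 : lam * q = σ * q / 64 := by rw [hlam]; ring
  have hρR : ρ ≤ R := by linarith
  have bρ : Bp (-S) S (tent 0 (4 * ρ)) := (tent_bp (by positivity)).mono (by linarith) (by linarith)
  have hsabs : |s| = s := abs_of_pos hs0
  constructor
  · -- the annulus
    have h1 := annulus (s := s) (w := w) (P := q / 4) (P' := q / 2) hvs hκ hcone hw (by positivity)
      (by linarith) (by rw [hsabs]; nlinarith)
    have h2 : fl R e x (sw v M e) (tent s (2 * w)) (q / 2) ≤ A k := by
      rw [hA]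
      simp only
      rw [← hq]
      exact comp _ (hdf.wd R x) hcp _ _ bs2 bk _ _ (by positivity) (by linarith) le_rfl
    have h3 : A (k + 1) ≤ fl R e x (sw v M e) (tent s (2 * w)) (q / 4) := by
      rw [hA]
      simp only
      refine comp _ (hdf.wd R x) hcp _ _ bk1 bs2 _ _ (hr0 _).le ?_ (by linarith)
      rw [hrs, ← hq]
      linarith
    have h4 : A 0 / N ≤ τ / (4 * a) := by
      rw [div_le_div_iff₀ (by linarith) (by positivity)]
      have h5 : 16 * a * (K + 8) / (σ * τ) ≤ N := by linarith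
      rw [div_le_iff₀ (by positivity)] at h5
      have h6 : A 0 * (4 * a) ≤ 4 / σ * (K + 8) * (4 * a) := by gcongr
      have h7 : 4 / σ * (K + 8) * (4 * a) ≤ τ * N := by
        rw [show 4 / σ * (K + 8) * (4 * a) = 16 * a * (K + 8) / σ by ring, div_le_iff₀ hσ0]
        linarith
      linarith
    rw [← hadef] at h1
    calc ∫ y in Disc e x s w (q / 2) \ Disc e x s w (q / 4), om v y
        ≤ 4 * a * w * (fl R e x (sw v M e) (tent s (2 * w)) (q / 2)
          - fl R e x (sw v M e) (tent s (2 * w)) (q / 4)) := h1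
      _ ≤ 4 * a * w * (τ / (4 * a)) := by
          gcongr
          linarith
      _ = τ * w := by field_simp
  · -- the disc
    have h1 := disc_flux (s := s) (w := w) (P := q / 4) hvs hκ hcone hw (by positivity)
      (by rw [hsabs]; nlinarith)
    have h2 : κ * η / 8 ≤ fl R e x (sw v M e) (tent s w) (q / 4) := by
      have h3 := conc_flux hvs hκ hcone hρ hρR
      have h4 : fl R e x (sw v M e) (tent 0 (4 * ρ)) (2 * ρ) ≤ fl R e x (sw v M e) (tent s w) (q / 4) :=
        comp _ (hdf.wd R x) hcp _ _ bρ bs1 _ _ (by positivity) (by linarith) (by linarith)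
      calc κ * η / 8 = κ / (8 * ρ) * (η * ρ) := by field_simp
        _ ≤ κ / (8 * ρ) * ∫ y in closedBall x ρ, om v y := by gcongr
        _ ≤ _ := h3.trans h4
    have h5 : fl R e x (fun _ => e) (tent s w) (q / 4) ≤ 64 * q ^ 2 / σ := by
      have h6 : fl R e x (fun _ => e) (tent s w) (q / 4) ≤ fl R e x (fun _ => e) (tent 0 (σ * q)) q :=
        comp _ ((const_df e).wd R x) hcpe _ _ bs1 bk _ _ (by positivity) (by linarith) le_rfl
      have h7 := fl_up (x := x) (Q := 2 * q) (R := R) ha hcpe continuous_const hσq he hq0.le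
        (by nlinarith) (by linarith)
      have h8 : ∫ y in closedBall x (2 * q), e ⬝ᵥ (fun _ : V => e) y = 64 * q ^ 3 := by
        simp only [he]
        rw [setIntegral_const, vol_ball x (by positivity), smul_eq_mul]
        ring
      rw [h8] at h7
      calc _ ≤ _ := h6
        _ ≤ _ := h7
        _ = _ := by field_simp
    have h9 : M * (64 * q ^ 2 / σ) ≤ κ * η / 16 := by
      have h10 : q ^ 2 ≤ (R / 4) ^ 2 := by gcongr
      calc M * (64 * q ^ 2 / σ) ≤ M * (64 * (R / 4) ^ 2 / σ) := by gcongr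
        _ = 4 * (M * R ^ 2) / σ := by ring
        _ ≤ 4 * (σ * κ / 64 * η) / σ := by gcongr
        _ = κ * η / 16 := by
          field_simp
          ring
    have h11 : M * fl R e x (fun _ => e) (tent s w) (q / 4) ≤ M * (64 * q ^ 2 / σ) := by gcongr
    calc σ * κ / 64 * η * w ≤ w * (κ * η / 16) := by
          have : σ * (κ * η * w) ≤ 1 * (κ * η * w) := by
            have : 0 ≤ κ * η * w := by positivity
            gcongr
            linarith
          have : 0 ≤ κ * η * w := by positivity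
          linarith
      _ ≤ w * (fl R e x (sw v M e) (tent s w) (q / 4)
          - M * fl R e x (fun _ => e) (tent s w) (q / 4)) := by
          gcongr
          linarith
      _ ≤ _ := h1

end Pool.Agent.Q151.CC
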