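import Pool.Agent.Q85.CC.Defs

/-! Tents and their primitives (project CC of helper85, job CC-PINCH). -/

set_option autoImplicit false

open MeasureTheory Set Metric
open scoped ContDiff

namespace Pool.Agent.Q151.CC

/-- a continuous nonnegative function supported in `(α, γ)` with integral one -/
structure Bp (α γ : ℝ) (η : ℝ → ℝ) : Prop where
  cont : Continuous η
  nn : ∀ z, 0 ≤ η z
  sup : ∀ z, η z ≠ 0 → α < z ∧ z < γ
  int : ∫ z in α..γ, η z = 1

/-- the primitive -/
noncomputable def pr (α : ℝ) (η : ℝ → ℝ) (z : ℝ) : ℝ := ∫ t in α..z, η t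

section Bp

variable {α γ : ℝ} {η : ℝ → ℝ} (h : Bp α γ η)
include h

lemma Bp.lt : α < γ := by
  have h1 : ∃ z, η z ≠ 0 := by
    by_contra hc
    push Not at hc
    have h2 := h.int
    simp [hc] at h2
  obtain ⟨z, hz⟩ := h1
  exact (h.sup z hz).1.trans (h.sup z hz).2

lemma Bp.zero_le {z : ℝ} (hz : z ≤ α) : η z = 0 := by
  by_contra hc
  exact absurd (h.sup z hc).1 (not_lt.2 hz)

lemma Bp.zero_ge {z : ℝ} (hz : γ ≤ z) : η z = 0 := by
  by_contra hc
  exact absurd (h.sup z hc).2 (not_lt.2 hz)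

lemma Bp.int_left {u v : ℝ} (hu : u ≤ α) (hv : v ≤ α) : ∫ z in u..v, η z = 0 := by
  rw [intervalIntegral.integral_congr (g := fun _ => (0 : ℝ))]
  · simp
  · intro z hz
    apply h.zero_le
    have := hz.2
    exact this.trans (max_le hu hv)

lemma Bp.int_right {u v : ℝ} (hu : γ ≤ u) (hv : γ ≤ v) : ∫ z in u..v, η z = 0 := by
  rw [intervalIntegral.integral_congr (g := fun _ => (0 : ℝ))]
  · simp
  · intro z hz
    apply h.zero_ge
    have := hz.1
    exact (le_min hu hv).trans this

lemma Bp.ii (u v : ℝ) : IntervalIntegrable η volume u v := h.cont.intervalIntegrable u v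

lemma Bp.mono {α' γ' : ℝ} (h1 : α' ≤ α) (h2 : γ ≤ γ') : Bp α' γ' η := by
  refine ⟨h.cont, h.nn, fun z hz => ⟨h1.trans_lt (h.sup z hz).1, (h.sup z hz).2.trans_le h2⟩, ?_⟩
  rw [← intervalIntegral.integral_add_adjacent_intervals (h.ii α' α) (h.ii α γ'),
    ← intervalIntegral.integral_add_adjacent_intervals (h.ii α γ) (h.ii γ γ'), h.int,
    h.int_left h1 le_rfl, h.int_right le_rfl h2]
  norm_num

lemma Bp.pr_deriv (u z : ℝ) : HasDerivAt (pr u η) (η z) z :=
  intervalIntegral.integral_hasDerivAt_right (h.ii u z)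
    (h.cont.stronglyMeasurableAtFilter _ _) h.cont.continuousAt

lemma Bp.pr_left {u z : ℝ} (hu : u ≤ α) (hz : z ≤ α) : pr u η z = 0 := h.int_left hu hz

lemma Bp.pr_right {u z : ℝ} (hu : u ≤ α) (hz : γ ≤ z) : pr u η z = 1 := by
  unfold pr
  exact (h.mono hu hz).int

lemma Bp.pr_nonneg {u : ℝ} (hu : u ≤ α) (z : ℝ) : 0 ≤ pr u η z := by
  by_cases hz : z ≤ u
  · rw [h.pr_left hu (hz.trans hu)]
  · exact intervalIntegral.integral_nonneg (not_le.1 hz).le fun t _ => h.nn t

lemma Bp.pr_le_one {u : ℝ} (hu : u ≤ α) (z : ℝ) : pr u η z ≤ 1 := by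
  by_cases hz : γ ≤ z
  · rw [h.pr_right hu hz]
  · have h1 := h.pr_right hu (le_refl γ)
    rw [← h1]
    unfold pr
    rw [← intervalIntegral.integral_add_adjacent_intervals (h.ii u z) (h.ii z γ)]
    have := intervalIntegral.integral_nonneg (μ := volume) (not_le.1 hz).le fun t _ => h.nn t
    linarith

end Bp

/-- the tent with top at `s` and half width `h`, integral one -/
noncomputable def tent (s h z : ℝ) : ℝ := max 0 (1 - |z - s| / h) / h

section tent

variable {s h : ℝ} (hh : 0 < h)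
include hh

lemma tent_le (z : ℝ) : tent s h z ≤ 1 / h := by
  unfold tent
  have h1 : max 0 (1 - |z - s| / h) ≤ 1 := by
    apply max_le zero_le_one
    have : 0 ≤ |z - s| / h := by positivity
    linarith
  gcongr

lemma tent_ge {z : ℝ} (hz : |z - s| ≤ h / 2) : 1 / (2 * h) ≤ tent s h z := by
  unfold tent
  have h1 : 1 / 2 ≤ max 0 (1 - |z - s| / h) := by
    apply le_max_of_le_right
    have : |z - s| / h ≤ 1 / 2 := by
      rw [div_le_iff₀ hh]
      linarith
    linarith
  rw [show 1 / (2 * h) = (1 / 2) / h by field_simp]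
  gcongr

lemma tent_supp {z : ℝ} (hz : tent s h z ≠ 0) : s - h < z ∧ z < s + h := by
  unfold tent at hz
  have h1 : 0 < 1 - |z - s| / h := by
    by_contra hc
    push Not at hc
    exact hz (by rw [max_eq_left hc, zero_div])
  have h2 : |z - s| < h := by
    have : |z - s| / h < 1 := by linarith
    rwa [div_lt_one hh] at this
  rw [abs_lt] at h2
  constructor <;> linarith [h2.1, h2.2]

lemma tent_int : ∫ z in (s - h)..(s + h), tent s h z = 1 := by
  have hc : Continuous (tent s h) := by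
    unfold tent
    fun_prop
  rw [← intervalIntegral.integral_add_adjacent_intervals (hc.intervalIntegrable (s - h) s)
    (hc.intervalIntegrable s (s + h))]
  have e1 : ∫ z in (s - h)..s, tent s h z = 1 / 2 := by
    rw [intervalIntegral.integral_congr (g := fun z => (1 + (z - s) / h) / h)]
    · have h1 : ∀ z ∈ uIcc (s - h) s, HasDerivAt
          (fun z : ℝ => (z - s) / h + (z - s) ^ 2 / (2 * h ^ 2)) ((1 + (z - s) / h) / h) z := by
        intro z _
        have a1 : HasDerivAt (fun z : ℝ => z - s) 1 z := (hasDerivAt_id z).sub_const s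
        refine ((a1.div_const h).fun_add ((a1.fun_pow 2).div_const (2 * h ^ 2))).congr_deriv ?_
        field_simp
        ring
      rw [intervalIntegral.integral_eq_sub_of_hasDerivAt h1
        ((by fun_prop : Continuous fun z : ℝ => (1 + (z - s) / h) / h).intervalIntegrable _ _)]
      field_simp
      ring
    · intro z hz
      have h2 := hz.2
      have h3 := hz.1
      rw [max_eq_right (by linarith)] at h2
      rw [min_eq_left (by linarith)] at h3
      unfold tent
      simp only
      rw [abs_of_nonpos (by linarith), max_eq_right]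
      · ring
      · have : -(z - s) / h ≤ 1 := by
          rw [div_le_one hh]
          linarith
        linarith
  have e2 : ∫ z in s..(s + h), tent s h z = 1 / 2 := by
    rw [intervalIntegral.integral_congr (g := fun z => (1 - (z - s) / h) / h)]
    · have h1 : ∀ z ∈ uIcc s (s + h), HasDerivAt
          (fun z : ℝ => (z - s) / h - (z - s) ^ 2 / (2 * h ^ 2)) ((1 - (z - s) / h) / h) z := by
        intro z _
        have a1 : HasDerivAt (fun z : ℝ => z - s) 1 z := (hasDerivAt_id z).sub_const s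
        refine ((a1.div_const h).fun_sub ((a1.fun_pow 2).div_const (2 * h ^ 2))).congr_deriv ?_
        field_simp
        ring
      rw [intervalIntegral.integral_eq_sub_of_hasDerivAt h1
        ((by fun_prop : Continuous fun z : ℝ => (1 - (z - s) / h) / h).intervalIntegrable _ _)]
      field_simp
      ring
    · intro z hz
      have h2 := hz.2
      have h3 := hz.1
      rw [max_eq_right (by linarith)] at h2
      rw [min_eq_left (by linarith)] at h3
      unfold tent
      simp only
      rw [abs_of_nonneg (by linarith), max_eq_right]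
      have : (z - s) / h ≤ 1 := by
        rw [div_le_one hh]
        linarith
      linarith
  rw [e1, e2]
  norm_num

lemma tent_bp : Bp (s - h) (s + h) (tent s h) := by
  refine ⟨?_, fun z => ?_, fun z hz => tent_supp hh hz, tent_int hh⟩
  · unfold tent
    fun_prop
  · unfold tent
    positivity

end tent

/-! ### the cut-off -/

/-- one on the negative numbers, zero on the numbers above one -/
noncomputable def bt (t : ℝ) : ℝ := 1 - pr 0 (tent (1 / 2) (1 / 2)) t

lemma tent_bp' : Bp 0 1 (tent (1 / 2) (1 / 2)) := by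
  have h := tent_bp (s := 1 / 2) (h := 1 / 2) (by norm_num)
  norm_num at h
  convert h using 2

lemma bt_deriv (t : ℝ) : HasDerivAt bt (-tent (1 / 2) (1 / 2) t) t :=
  (tent_bp'.pr_deriv 0 t).const_sub 1

lemma bt_nonneg (t : ℝ) : 0 ≤ bt t := by
  unfold bt
  linarith [tent_bp'.pr_le_one le_rfl t]

lemma bt_le_one (t : ℝ) : bt t ≤ 1 := by
  unfold bt
  linarith [tent_bp'.pr_nonneg le_rfl t]

lemma bt_one {t : ℝ} (ht : t ≤ 0) : bt t = 1 := by
  unfold bt
  rw [tent_bp'.pr_left le_rfl ht]
  norm_num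

lemma bt_zero {t : ℝ} (ht : 1 ≤ t) : bt t = 0 := by
  unfold bt
  rw [tent_bp'.pr_right le_rfl ht]
  norm_num

lemma contDiff_of_deriv {f f' : ℝ → ℝ} (h : ∀ t, HasDerivAt f (f' t) t) (hc : Continuous f') :
    ContDiff ℝ 1 f := by
  rw [contDiff_one_iff_deriv]
  refine ⟨fun t => (h t).differentiableAt, ?_⟩
  rw [show deriv f = f' from funext fun t => (h t).deriv]
  exact hc

lemma bt_smooth : ContDiff ℝ 1 bt :=
  contDiff_of_deriv bt_deriv tent_bp'.cont.neg

/-- the primitive of the difference of a lower and an upper bump -/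
noncomputable def ze (α : ℝ) (η₁ η₂ : ℝ → ℝ) (z : ℝ) : ℝ := pr α η₁ z - pr α η₂ z

lemma ze_deriv {α γ : ℝ} {η₁ η₂ : ℝ → ℝ} (h₁ : Bp α γ η₁) (h₂ : Bp α γ η₂) (z : ℝ) :
    HasDerivAt (ze α η₁ η₂) (η₁ z - η₂ z) z := (h₁.pr_deriv α z).sub (h₂.pr_deriv α z)

lemma ze_supp {α γ : ℝ} {η₁ η₂ : ℝ → ℝ} (h₁ : Bp α γ η₁) (h₂ : Bp α γ η₂) {z : ℝ}
    (hz : ze α η₁ η₂ z ≠ 0) : α ≤ z ∧ z ≤ γ := by
  unfold ze at hz
  constructor
  · by_contra hc
    push Not at hc
    rw [h₁.pr_left le_rfl hc.le, h₂.pr_left le_rfl hc.le] at hz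
    exact hz (sub_self _)
  · by_contra hc
    push Not at hc
    rw [h₁.pr_right le_rfl hc.le, h₂.pr_right le_rfl hc.le] at hz
    exact hz (sub_self _)

lemma ze_nonneg {α μ γ : ℝ} {η₁ η₂ : ℝ → ℝ} (h₁ : Bp α μ η₁) (h₂ : Bp μ γ η₂) (z : ℝ) :
    0 ≤ ze α η₁ η₂ z := by
  unfold ze
  have ha := h₁.lt.le
  by_cases hz : z ≤ μ
  · rw [h₂.pr_left ha hz]
    linarith [h₁.pr_nonneg le_rfl z]
  · rw [h₁.pr_right le_rfl (not_le.1 hz).le]
    linarith [h₂.pr_le_one ha z]

end Pool.Agent.Q151.CC
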